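import Pool.Agent.H55.EB.Pts

/-!
# Counting: a good pair (form, random colours)
-/

set_option autoImplicit false
set_option linter.unusedSectionVars false

open Finset Module

namespace Pool.Agent.H55.EB

/-- The fibres of a surjective homomorphism of finite groups. -/
lemma card_preimage {G H : Type} [AddCommGroup G] [AddCommGroup H] [Fintype G] [Fintype H]
    [DecidableEq G] [DecidableEq H] (f : G →+ H) (hf : Function.Surjective f) (B : Finset H) :
    (Finset.univ.filter fun g => f g ∈ B).card * Fintype.card H = Fintype.card G * B.card := by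
  set κ := (Finset.univ.filter fun g => f g = 0).card with hκ
  have h1 : ∀ b : H, (Finset.univ.filter fun g => f g = b).card = κ := by
    intro b
    obtain ⟨g₀, hg₀⟩ := hf b
    rw [hκ]
    refine (Finset.card_bij (fun g _ => g₀ + g) ?_ ?_ ?_).symm
    · intro g hg
      rw [Finset.mem_filter] at hg ⊢
      exact ⟨Finset.mem_univ _, by rw [map_add, hg.2, hg₀, add_zero]⟩
    · intro g _ g' _ h
      exact add_left_cancel h
    · intro g hg
      rw [Finset.mem_filter] at hg
      refine ⟨g - g₀, ?_, by abel⟩
      rw [Finset.mem_filter]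
      exact ⟨Finset.mem_univ _, by rw [map_sub, hg.2, hg₀, sub_self]⟩
  have h2 : ∀ C : Finset H, (Finset.univ.filter fun g => f g ∈ C).card = C.card * κ := by
    intro C
    rw [Finset.card_eq_sum_card_fiberwise (f := fun g => f g) (t := C)
      (fun g hg => by
        have := (Finset.mem_filter.1 (Finset.mem_coe.1 hg)).2
        exact this)]
    rw [Finset.sum_congr rfl (g := fun _ => κ), Finset.sum_const, smul_eq_mul]
    intro b hb
    rw [← h1 b, Finset.filter_filter]
    congr 1
    ext g
    simp only [Finset.mem_filter, Finset.mem_univ, true_and]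
    constructor
    · exact fun h => h.2
    · intro h
      exact ⟨by rw [h]; exact hb, h⟩
  have h3 : Fintype.card G = Fintype.card H * κ := by
    have := h2 Finset.univ
    rw [Finset.card_univ] at this
    rw [← this]
    simp
  rw [h2 B, h3]
  ring

variable {K : Type} [Field K] [Fintype K]

/-- dual functionals of a linearly independent family -/
lemma exists_dual {m n : ℕ} {w : Fin m → (Fin n → K)} (hw : LinearIndependent K w) :
    ∃ l : Fin m → Fin n → K, ∀ i j, ∑ b, l i b * w j b = if i = j then 1 else 0 := by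
  classical
  set L : (Fin m → K) →ₗ[K] (Fin n → K) := Fintype.linearCombination K w with hL
  have hker : LinearMap.ker L = ⊥ := by
    rw [LinearMap.ker_eq_bot']
    intro c hc
    rw [hL, Fintype.linearCombination_apply] at hc
    funext i
    exact Fintype.linearIndependent_iff.1 hw c hc i
  obtain ⟨g, hg⟩ := L.exists_leftInverse_of_injective hker
  have hgw : ∀ j, g (w j) = Pi.single j 1 := by
    intro j
    have h1 : L (Pi.single j 1) = w j := by
      rw [hL, Fintype.linearCombination_apply, Finset.sum_eq_single j]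
      · rw [Pi.single_eq_same, one_smul]
      · intro i _ hi
        rw [Pi.single_eq_of_ne hi, zero_smul]
      · intro h
        exact absurd (Finset.mem_univ j) h
    rw [← h1]
    exact LinearMap.congr_fun hg (Pi.single j 1)
  refine ⟨fun i b => g (Pi.single b 1) i, fun i j => ?_⟩
  have h2 := lin_apply g (w j) i
  rw [← h2, hgw j, Pi.single_apply]

/-- the sum of the vectors with indices in `S` -/
def pt {m n : ℕ} (w : Fin m → (Fin n → K)) (S : Finset (Fin m)) : Fin n → K := ∑ i ∈ S, w i

lemma dual_pt {m n : ℕ} {w : Fin m → (Fin n → K)} {l : Fin m → Fin n → K}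
    (hl : ∀ i j, ∑ b, l i b * w j b = if i = j then 1 else 0) (i : Fin m) (S : Finset (Fin m)) :
    ∑ b, l i b * pt w S b = if i ∈ S then 1 else 0 := by
  classical
  unfold pt
  simp_rw [Finset.sum_apply, Finset.mul_sum]
  rw [Finset.sum_comm]
  simp_rw [hl]
  rw [Finset.sum_ite_eq]

lemma pt_ne_zero {m n : ℕ} {w : Fin m → (Fin n → K)} (hw : LinearIndependent K w)
    {S : Finset (Fin m)} (hS : S.Nonempty) : pt w S ≠ 0 := by
  obtain ⟨l, hl⟩ := exists_dual hw
  obtain ⟨i, hi⟩ := hS
  intro h
  have h1 := dual_pt hl i S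
  rw [h, if_pos hi] at h1
  simp at h1

lemma pt_mk_inj {m n : ℕ} {w : Fin m → (Fin n → K)} (hw : LinearIndependent K w)
    {S S' : Finset (Fin m)} (hS : S.Nonempty) (hS' : S'.Nonempty)
    (h : Projectivization.mk K (pt w S) (pt_ne_zero hw hS) =
      Projectivization.mk K (pt w S') (pt_ne_zero hw hS')) : S = S' := by
  obtain ⟨l, hl⟩ := exists_dual hw
  rw [Projectivization.mk_eq_mk_iff] at h
  obtain ⟨u, hu⟩ := h
  ext i
  have h1 := dual_pt hl i S
  have h2 := dual_pt hl i S'
  have h3 : ∑ b, l i b * pt w S b = (u : K) * ∑ b, l i b * pt w S' b := by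
    rw [← hu, Finset.mul_sum]
    refine Finset.sum_congr rfl fun b _ => ?_
    have : (u • pt w S') b = (u : K) * pt w S' b := rfl
    rw [this]
    ring
  rw [h1, h2] at h3
  by_cases hi : i ∈ S <;> by_cases hi' : i ∈ S'
  · exact ⟨fun _ => hi', fun _ => hi⟩
  · rw [if_pos hi, if_neg hi', mul_zero] at h3
    exact absurd h3 one_ne_zero
  · rw [if_neg hi, if_pos hi', mul_one] at h3
    exact absurd h3.symm u.ne_zero
  · exact ⟨fun h => absurd h hi, fun h => absurd h hi'⟩

/-- a form with prescribed values on the points of index sets of size `D` -/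
lemma exists_frm {m n D : ℕ} {ε : Fin D → ℕ} (hε : ∀ i, ε i ≠ 0)
    (hadd : ∀ i, ∀ x y : K, (x + y) ^ ε i = x ^ ε i + y ^ ε i)
    {w : Fin m → (Fin n → K)} (hw : LinearIndependent K w) (y : Finset (Fin m) → K) :
    ∃ a : (Fin D → Fin n) → K, ∀ S : Finset (Fin m), S.card = D → frm ε a (pt w S) = y S := by
  classical
  obtain ⟨l, hl⟩ := exists_dual hw
  set A : Finset (Finset (Fin m)) := Finset.univ.filter fun S => S.card = D with hA
  -- the product of the functionals with indices in `S`
  set fS : A → (Fin D → Fin n) → K := fun S j =>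
    ∏ i : Fin D, l (S.1.orderEmbOfFin (Finset.mem_filter.1 S.2).2 i) (j i) ^ ε i with hfS
  have hval : ∀ (S : A) (S' : Finset (Fin m)), S'.card = D →
      frm ε (fS S) (pt w S') = if S.1 = S' then 1 else 0 := by
    intro S S' hS'
    have h1 : frm ε (fS S) (pt w S') = ∏ i : Fin D,
        (if S.1.orderEmbOfFin (Finset.mem_filter.1 S.2).2 i ∈ S' then (1 : K) else 0) := by
      rw [hfS, frm_prod hε hadd (fun i => l (S.1.orderEmbOfFin (Finset.mem_filter.1 S.2).2 i))]
      refine Finset.prod_congr rfl fun i _ => ?_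
      rw [dual_pt hl _ S']
      split_ifs
      · exact one_pow _
      · exact zero_pow (hε i)
    rw [h1]
    by_cases h : S.1 = S'
    · rw [if_pos h]
      refine Finset.prod_eq_one fun i _ => if_pos ?_
      rw [← h]
      exact Finset.orderEmbOfFin_mem _ _ i
    · rw [if_neg h]
      have h2 : ∃ i : Fin D, S.1.orderEmbOfFin (Finset.mem_filter.1 S.2).2 i ∉ S' := by
        by_contra hcon
        push Not at hcon
        have h3 : S.1 ⊆ S' := by
          intro x hx
          have h4 : x ∈ Set.range (S.1.orderEmbOfFin (Finset.mem_filter.1 S.2).2) := by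
            rw [Finset.range_orderEmbOfFin]
            exact hx
          obtain ⟨i, hi⟩ := h4
          rw [← hi]
          exact hcon i
        exact h (Finset.eq_of_subset_of_card_le h3 (by rw [hS', (Finset.mem_filter.1 S.2).2]))
      obtain ⟨i, hi⟩ := h2
      exact Finset.prod_eq_zero (Finset.mem_univ i) (if_neg hi)
  refine ⟨fun j => ∑ S : A, y S.1 * fS S j, fun S' hS' => ?_⟩
  have h5 : frm ε (fun j => ∑ S : A, y S.1 * fS S j) (pt w S') =
      ∑ S : A, frm ε (fun j => y S.1 * fS S j) (pt w S') :=
    frm_sum ε Finset.univ (fun (S : A) j => y S.1 * fS S j) (pt w S')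
  rw [h5]
  simp_rw [frm_const_mul]
  rw [Finset.sum_congr rfl fun S _ => by rw [hval S S' hS']]
  have hmem : S' ∈ A := Finset.mem_filter.2 ⟨Finset.mem_univ _, hS'⟩
  rw [Finset.sum_eq_single (⟨S', hmem⟩ : A)]
  · rw [if_pos rfl, mul_one]
  · intro S _ hS
    rw [if_neg (fun h => hS (Subtype.ext h)), mul_zero]
  · intro h
    exact absurd (Finset.mem_univ _) h

/-- the index sets -/
abbrev Idx (m D : ℕ) : Type := {S : Finset (Fin m) // S.card = D}

lemma card_idx (m D : ℕ) : Fintype.card (Idx m D) = m.choose D := by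
  classical
  rw [Fintype.card_subtype]
  have h : (Finset.univ.filter fun S : Finset (Fin m) => S.card = D) =
      Finset.powersetCard D Finset.univ := by
    ext S
    simp [Finset.mem_powersetCard]
  rw [h, Finset.card_powersetCard, Finset.card_univ, Fintype.card_fin]

/-- the point of an index set -/
noncomputable def Pt {m n D : ℕ} (hD : 0 < D) {w : Fin m → (Fin n → K)}
    (hw : LinearIndependent K w) (S : Idx m D) : Projectivization K (Fin n → K) :=
  Projectivization.mk K (pt w S.1) (pt_ne_zero hw (Finset.card_pos.1 (by rw [S.2]; exact hD)))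

/-- the evaluation of a pair (form, function on the points) -/
noncomputable def Ev {m n D s : ℕ} (ε : Fin D → ℕ) (hD : 0 < D) {w : Fin m → (Fin n → K)}
    (hw : LinearIndependent K w) :
    (((Fin D → Fin n) → K) × (Projectivization K (Fin n → K) → ZMod s)) →+
      (Idx m D → K × ZMod s) where
  toFun ω S := (frm ε ω.1 (Pt hD hw S).rep, ω.2 (Pt hD hw S))
  map_zero' := by
    funext S
    refine Prod.ext ?_ rfl
    show frm ε 0 (Pt hD hw S).rep = 0
    unfold frm
    exact Finset.sum_eq_zero fun j _ => by rw [Pi.zero_apply, zero_mul]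
  map_add' ω ω' := by
    funext S
    exact Prod.ext (frm_add _ _ _ _) rfl

lemma Ev_surj {m n D s : ℕ} {ε : Fin D → ℕ} (hε : ∀ i, ε i ≠ 0)
    (hadd : ∀ i, ∀ x y : K, (x + y) ^ ε i = x ^ ε i + y ^ ε i) (hD : 0 < D)
    {w : Fin m → (Fin n → K)} (hw : LinearIndependent K w) :
    Function.Surjective (Ev (s := s) ε hD hw) := by
  classical
  intro y
  have hex : ∀ S : Idx m D, ∃ u : Kˣ, u • pt w S.1 = (Pt hD hw S).rep := fun S =>
    Projectivization.exists_smul_eq_mk_rep K _ _
  choose u hu using hex
  obtain ⟨a, ha⟩ := exists_frm (D := D) hε hadd hw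
    (fun S => if h : S.card = D then ((u ⟨S, h⟩ : K) ^ (∑ i, ε i))⁻¹ * (y ⟨S, h⟩).1 else 0)
  refine ⟨(a, fun P => if h : ∃ S : Idx m D, Pt hD hw S = P then (y h.choose).2 else 0), ?_⟩
  funext S
  refine Prod.ext ?_ ?_
  · show frm ε a (Pt hD hw S).rep = (y S).1
    rw [← hu S]
    have h1 : u S • pt w S.1 = (u S : K) • pt w S.1 := rfl
    rw [h1, frm_smul, ha S.1 S.2, dif_pos S.2]
    have h2 : ((u S : K) ^ (∑ i, ε i)) ≠ 0 := pow_ne_zero _ (u S).ne_zero
    rw [← mul_assoc]
    have h3 : (⟨S.1, S.2⟩ : Idx m D) = S := rfl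
    rw [h3, mul_inv_cancel₀ h2, one_mul]
  · show (if h : ∃ S' : Idx m D, Pt hD hw S' = Pt hD hw S then (y h.choose).2 else 0) = (y S).2
    have h : ∃ S' : Idx m D, Pt hD hw S' = Pt hD hw S := ⟨S, rfl⟩
    rw [dif_pos h]
    have h4 : h.choose = S := Subtype.ext (pt_mk_inj hw
      (Finset.card_pos.1 (by rw [h.choose.2]; exact hD))
      (Finset.card_pos.1 (by rw [S.2]; exact hD)) h.choose_spec)
    rw [h4]

lemma Pt_le {m n D : ℕ} (hD : 0 < D) {w : Fin m → (Fin n → K)}
    (hw : LinearIndependent K w) (S : Idx m D) :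
    (Pt hD hw S).submodule ≤ Submodule.span K (Set.range w) := by
  unfold Pt
  rw [Projectivization.submodule_mk, Submodule.span_singleton_le_iff_mem]
  exact Submodule.sum_mem _ fun i _ => Submodule.subset_span (Set.mem_range_self i)

/-- The union bound. -/
theorem exists_good {m n D s : ℕ} {ε : Fin D → ℕ} (hε : ∀ i, ε i ≠ 0)
    (hadd : ∀ i, ∀ x y : K, (x + y) ^ ε i = x ^ ε i + y ^ ε i) (hD : 0 < D) (hs : 0 < s)
    (Ψ : K × ZMod s → Fin s)
    (hΨ : Function.Surjective Ψ)
    (hcount : s * Fintype.card K ^ (n * m) * (Fintype.card K * s - 1) ^ (m.choose D) <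
      (Fintype.card K * s) ^ (m.choose D)) :
    ∃ (a : (Fin D → Fin n) → K) (r : Projectivization K (Fin n → K) → ZMod s),
      ∀ w : Fin m → (Fin n → K), LinearIndependent K w → ∀ i : Fin s,
        ∃ P : Projectivization K (Fin n → K), P.submodule ≤ Submodule.span K (Set.range w) ∧
          Ψ (frm ε a P.rep, r P) = i := by
  classical
  have : NeZero s := ⟨by omega⟩
  have : Fintype (Projectivization K (Fin n → K)) := Fintype.ofFinite _
  let X : Type := ((Fin D → Fin n) → K) × (Projectivization K (Fin n → K) → ZMod s)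
  by_contra hcon
  push Not at hcon
  let bad : (Fin m → (Fin n → K)) → Fin s → Finset X := fun w i =>
    if hw : LinearIndependent K w then
      Finset.univ.filter fun ω : X => ∀ S : Idx m D, Ψ (Ev ε hD hw ω S) ≠ i
    else ∅
  have hcov : (Finset.univ : Finset X) ⊆
      (Finset.univ : Finset ((Fin m → (Fin n → K)) × Fin s)).biUnion fun z => bad z.1 z.2 := by
    intro ω _
    obtain ⟨w, hw, i, hwi⟩ := hcon ω.1 ω.2
    rw [Finset.mem_biUnion]
    refine ⟨(w, i), Finset.mem_univ _, ?_⟩
    simp only [bad, dif_pos hw, Finset.mem_filter, Finset.mem_univ, true_and]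
    intro S
    exact hwi (Pt hD hw S) (Pt_le hD hw S)
  set q := Fintype.card K with hq
  set T := m.choose D with hT
  have hbad : ∀ w i, (bad w i).card * (q * s) ^ T ≤ Fintype.card X * (q * s - 1) ^ T := by
    intro w i
    by_cases hw : LinearIndependent K w
    · simp only [bad, dif_pos hw]
      set B : Finset (Idx m D → K × ZMod s) :=
        Fintype.piFinset fun _ => Finset.univ.filter fun z => Ψ z ≠ i with hB
      have h1 : (Finset.univ.filter fun ω : X => ∀ S : Idx m D, Ψ (Ev ε hD hw ω S) ≠ i) =
          Finset.univ.filter fun ω : X => Ev ε hD hw ω ∈ B := by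
        ext ω
        simp [hB, Fintype.mem_piFinset]
      have h2 := card_preimage (Ev (s := s) ε hD hw) (Ev_surj hε hadd hD hw) B
      have h3 : Fintype.card (Idx m D → K × ZMod s) = (q * s) ^ T := by
        rw [Fintype.card_fun, Fintype.card_prod, ZMod.card, card_idx]
      have h4 : B.card ≤ (q * s - 1) ^ T := by
        rw [hB, Fintype.card_piFinset, Finset.prod_const, Finset.card_univ, card_idx]
        refine Nat.pow_le_pow_left ?_ _
        obtain ⟨z, hz⟩ := hΨ i
        have h5 : (Finset.univ.filter fun z => Ψ z ≠ i) ⊆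
            (Finset.univ : Finset (K × ZMod s)).erase z := by
          intro y hy
          rw [Finset.mem_filter] at hy
          rw [Finset.mem_erase]
          exact ⟨fun h => hy.2 (by rw [h]; exact hz), Finset.mem_univ _⟩
        have h6 := Finset.card_le_card h5
        rwa [Finset.card_erase_of_mem (Finset.mem_univ z), Finset.card_univ, Fintype.card_prod,
          ZMod.card] at h6
      rw [h1, ← h3, h2]
      exact Nat.mul_le_mul_left _ h4
    · simp only [bad, dif_neg hw, Finset.card_empty, zero_mul]
      exact Nat.zero_le _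
  have hX : 0 < Fintype.card X := Fintype.card_pos
  have h7 : Fintype.card X ≤ ∑ z : (Fin m → (Fin n → K)) × Fin s, (bad z.1 z.2).card := by
    have h8 := (Finset.card_le_card hcov).trans Finset.card_biUnion_le
    rwa [Finset.card_univ] at h8
  have h9 : Fintype.card X * (q * s) ^ T ≤
      (q ^ (n * m) * s) * (Fintype.card X * (q * s - 1) ^ T) := by
    calc Fintype.card X * (q * s) ^ T
        ≤ (∑ z : (Fin m → (Fin n → K)) × Fin s, (bad z.1 z.2).card) * (q * s) ^ T :=
          Nat.mul_le_mul_right _ h7
      _ = ∑ z : (Fin m → (Fin n → K)) × Fin s, (bad z.1 z.2).card * (q * s) ^ T := by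
          rw [Finset.sum_mul]
      _ ≤ ∑ _z : (Fin m → (Fin n → K)) × Fin s, Fintype.card X * (q * s - 1) ^ T :=
          Finset.sum_le_sum fun z _ => hbad z.1 z.2
      _ = (q ^ (n * m) * s) * (Fintype.card X * (q * s - 1) ^ T) := by
          rw [Finset.sum_const, Finset.card_univ, smul_eq_mul, Fintype.card_prod,
            Fintype.card_fun, Fintype.card_fun, Fintype.card_fin, Fintype.card_fin,
            Fintype.card_fin, ← pow_mul]
  have h10 : Fintype.card X * (s * q ^ (n * m) * (q * s - 1) ^ T) <
      Fintype.card X * (q * s) ^ T := (Nat.mul_lt_mul_left hX).2 hcount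
  have h11 : (q ^ (n * m) * s) * (Fintype.card X * (q * s - 1) ^ T) =
      Fintype.card X * (s * q ^ (n * m) * (q * s - 1) ^ T) := by ring
  rw [h11] at h9
  exact absurd (lt_of_lt_of_le h10 h9) (lt_irrefl _)

end Pool.Agent.H55.EB
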