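import Mathlib

/-!
# The numerical condition
-/

set_option autoImplicit false

open Finset

namespace Pool.Agent.H55.EB

lemma pow_le_choose' {m D : ℕ} (h : 2 * D ≤ m) : m ^ D ≤ 2 ^ D * D.factorial * m.choose D := by
  have h1 : (m + 1 - D) ^ D ≤ D.factorial * m.choose D := by
    rw [← Nat.descFactorial_eq_factorial_mul_choose]
    exact m.pow_sub_le_descFactorial D
  calc m ^ D ≤ (2 * (m + 1 - D)) ^ D := Nat.pow_le_pow_left (by omega) D
    _ = 2 ^ D * (m + 1 - D) ^ D := mul_pow _ _ _
    _ ≤ 2 ^ D * (D.factorial * m.choose D) := Nat.mul_le_mul_left _ h1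
    _ = 2 ^ D * D.factorial * m.choose D := by ring

/-- The numerical condition of the union bound. -/
theorem num_ok {q s D : ℕ} (hq : 2 ≤ q) (hs : 1 ≤ s) (hD : 2 ≤ D) :
    ∃ C : ℝ, 1 ≤ C ∧ ∀ n m : ℕ, 1 ≤ n → C * (n : ℝ) ^ (1 / ((D : ℝ) - 1)) < m →
      s * q ^ (n * m) * (q * s - 1) ^ (m.choose D) < (q * s) ^ (m.choose D) := by
  set A : ℝ := 2 ^ D * D.factorial * (q * s) with hA
  have hA1 : 1 ≤ A := by
    have h1 : (1 : ℝ) ≤ 2 ^ D := one_le_pow₀ (by norm_num)
    have h2 : (1 : ℝ) ≤ D.factorial := by exact_mod_cast Nat.factorial_pos D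
    have h3 : (1 : ℝ) ≤ q * s := by
      have : 1 ≤ q * s := Nat.mul_pos (by omega) (by omega)
      exact_mod_cast this
    have h4 : (1 : ℝ) ≤ 2 ^ D * D.factorial := by nlinarith
    nlinarith
  have hs1 : (1 : ℝ) ≤ s := by exact_mod_cast hs
  have hq2 : (2 : ℝ) ≤ q := by exact_mod_cast hq
  have hD2 : (2 : ℝ) ≤ D := by exact_mod_cast hD
  set C : ℝ := A * (s + q) + 2 * D with hC
  have hC0 : 2 * (D : ℝ) ≤ C := by
    have : 0 ≤ A * (s + q) := by positivity
    linarith
  have hC1 : 1 ≤ C := by linarith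
  refine ⟨C, hC1, fun n m hn hm => ?_⟩
  have hn1 : (1 : ℝ) ≤ n := by exact_mod_cast hn
  set β : ℝ := 1 / ((D : ℝ) - 1) with hβ
  have hβ0 : 0 < β := by
    rw [hβ]
    apply div_pos one_pos
    linarith
  have hnβ : 1 ≤ (n : ℝ) ^ β := Real.one_le_rpow hn1 hβ0.le
  have hmC : C < m := lt_of_le_of_lt (by nlinarith) hm
  have hm1 : (1 : ℝ) ≤ m := by linarith
  have h2D : 2 * D ≤ m := by
    have : (2 * (D : ℝ)) < m := lt_of_le_of_lt hC0 hmC
    have h : ((2 * D : ℕ) : ℝ) < m := by push_cast; exact this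
    exact_mod_cast h.le
  -- `m^(D-1) ≥ C n`
  have hpow : C * n ≤ (m : ℝ) ^ (D - 1) := by
    have h1 : ((n : ℝ) ^ β) ^ (D - 1) = n := by
      rw [← Real.rpow_natCast, ← Real.rpow_mul (by positivity), Nat.cast_sub (by omega),
        Nat.cast_one, hβ, one_div, inv_mul_cancel₀ (by linarith), Real.rpow_one]
    calc C * n ≤ C ^ (D - 1) * n := by
          have : C ≤ C ^ (D - 1) := le_self_pow₀ hC1 (by omega)
          exact mul_le_mul_of_nonneg_right this (by linarith)
      _ = (C * (n : ℝ) ^ β) ^ (D - 1) := by rw [mul_pow, h1]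
      _ ≤ (m : ℝ) ^ (D - 1) := pow_le_pow_left₀ (by positivity) hm.le _
  have hpow2 : C * n * m ≤ (m : ℝ) ^ D := by
    calc C * n * m ≤ (m : ℝ) ^ (D - 1) * m := mul_le_mul_of_nonneg_right hpow (by linarith)
      _ = (m : ℝ) ^ D := by
          rw [← pow_succ]
          congr 1
          omega
  set T := m.choose D with hT
  have hch : (m : ℝ) ^ D ≤ 2 ^ D * D.factorial * T := by exact_mod_cast pow_le_choose' h2D
  -- the exponent
  have hqs : (0 : ℝ) < q * s := by positivity
  have hexp : (s : ℝ) + q * (n * m) < T / (q * s) := by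
    rw [lt_div_iff₀ hqs]
    have h0 : (0 : ℝ) < 2 ^ D * D.factorial := by positivity
    have hnm : (1 : ℝ) ≤ n * m := by nlinarith
    have h1 : A * (s + q) * (n * m) < C * n * m := by
      have : (0 : ℝ) < 2 * D * (n * m) := by positivity
      rw [hC]
      nlinarith
    have h2 : (s : ℝ) + q * (n * m) ≤ (s + q) * (n * m) := by nlinarith
    have h3 : A * ((s : ℝ) + q * (n * m)) < 2 ^ D * D.factorial * T := by
      calc A * ((s : ℝ) + q * (n * m)) ≤ A * ((s + q) * (n * m)) :=
            mul_le_mul_of_nonneg_left h2 (by linarith)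
        _ = A * (s + q) * (n * m) := by ring
        _ < C * n * m := h1
        _ ≤ (m : ℝ) ^ D := hpow2
        _ ≤ 2 ^ D * D.factorial * T := hch
    have h4 : A * ((s : ℝ) + q * (n * m)) =
        2 ^ D * D.factorial * (((s : ℝ) + q * (n * m)) * (q * s)) := by
      rw [hA]
      ring
    rw [h4] at h3
    exact lt_of_mul_lt_mul_left h3 h0.le
  -- conclusion in real numbers
  have hle : 1 ≤ q * s := Nat.mul_pos (by omega) (by omega)
  have hreal : (s : ℝ) * q ^ (n * m) * (q * s - 1) ^ T < (q * s) ^ T := by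
    have e1 : (s : ℝ) ≤ Real.exp s := by
      have := Real.add_one_le_exp (s : ℝ)
      linarith
    have e2 : (q : ℝ) ^ (n * m) ≤ Real.exp (q * (n * m)) := by
      have h5 : (q : ℝ) ≤ Real.exp q := by
        have := Real.add_one_le_exp (q : ℝ)
        linarith
      calc (q : ℝ) ^ (n * m) ≤ Real.exp q ^ (n * m) := pow_le_pow_left₀ (by linarith) h5 _
        _ = Real.exp (q * (n * m)) := by
            rw [← Real.exp_nat_mul]
            congr 1
            push_cast
            ring
    have e3 : ((q : ℝ) * s - 1) ^ T ≤ (q * s) ^ T * Real.exp (-(T / (q * s))) := by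
      have h6 : ((q : ℝ) * s - 1) ≤ q * s * Real.exp (-(1 / (q * s))) := by
        have h7 := Real.add_one_le_exp (-(1 / ((q : ℝ) * s)))
        have h8 := mul_le_mul_of_nonneg_left h7 hqs.le
        have h9 : (q : ℝ) * s * (-(1 / (q * s)) + 1) = q * s - 1 := by
          field_simp
          ring
        linarith
      have h10 : (0 : ℝ) ≤ q * s - 1 := by
        have : (1 : ℝ) ≤ q * s := by exact_mod_cast hle
        linarith
      calc ((q : ℝ) * s - 1) ^ T ≤ (q * s * Real.exp (-(1 / (q * s)))) ^ T :=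
            pow_le_pow_left₀ h10 h6 _
        _ = (q * s) ^ T * Real.exp (-(T / (q * s))) := by
            rw [mul_pow, ← Real.exp_nat_mul]
            congr 2
            ring
    calc (s : ℝ) * q ^ (n * m) * (q * s - 1) ^ T
        ≤ Real.exp s * Real.exp (q * (n * m)) * ((q * s) ^ T * Real.exp (-(T / (q * s)))) := by
          have h10 : (0 : ℝ) ≤ q * s - 1 := by
            have : (1 : ℝ) ≤ q * s := by exact_mod_cast hle
            linarith
          have h11 : (0 : ℝ) ≤ ((q : ℝ) * s - 1) ^ T := pow_nonneg h10 _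
          gcongr
      _ = (q * s) ^ T * Real.exp (s + q * (n * m) - T / (q * s)) := by
          rw [sub_eq_add_neg, Real.exp_add, Real.exp_add]
          ring
      _ < (q * s) ^ T * 1 := by
          have h12 : Real.exp (s + q * (n * m) - T / (q * s)) < 1 := by
            rw [Real.exp_lt_one_iff]
            linarith
          exact mul_lt_mul_of_pos_left h12 (by positivity)
      _ = (q * s) ^ T := mul_one _
  have hcast : ((s * q ^ (n * m) * (q * s - 1) ^ T : ℕ) : ℝ) < (((q * s) ^ T : ℕ) : ℝ) := by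
    push_cast [Nat.cast_sub hle]
    exact hreal
  exact_mod_cast hcast

end Pool.Agent.H55.EB
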