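import Pool.Agent.H55.EB.Cnt
import Pool.Agent.H55.EB.Num

/-!
# The general construction
-/

set_option autoImplicit false

open Finset Module

namespace Pool.Agent.H55.EB

variable {K : Type} [Field K] [Fintype K]

/-- There are colourings without a copy of `c₁` whose homogeneous subspaces have dimension at most
`C n ^ (1 / (D - 1))`. -/
def Bd {k s : ℕ} (c₁ : Projectivization K (Fin k → K) → Fin s) (D : ℕ) : Prop :=
  ∃ C : ℝ, ∀ n : ℕ, ∃ c : Projectivization K (Fin n → K) → Fin s,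
    (¬∃ (φ : (Fin k → K) →ₗ[K] (Fin n → K)) (hφ : Function.Injective φ),
      ∀ x, c₁ x = c (Projectivization.map φ hφ x)) ∧
    ∀ U : Submodule K (Fin n → K),
      (∃ i : Fin s, ∀ x : Projectivization K (Fin n → K), x.submodule ≤ U → c x ≠ i) →
        (finrank K U : ℝ) ≤ C * (n : ℝ) ^ (1 / ((D : ℝ) - 1))

omit [Fintype K] in
lemma Bd.mono {k s D D' : ℕ} {c₁ : Projectivization K (Fin k → K) → Fin s} (hb : Bd c₁ D')
    (hD : 2 ≤ D) (h : D ≤ D') : Bd c₁ D := by
  obtain ⟨C, hC⟩ := hb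
  refine ⟨max C 0, fun n => ?_⟩
  obtain ⟨c, h1, h2⟩ := hC n
  refine ⟨c, h1, fun U hU => (h2 U hU).trans ?_⟩
  have hD1 : (2 : ℝ) ≤ D := by exact_mod_cast hD
  have hD2 : (D : ℝ) ≤ D' := by exact_mod_cast h
  rcases Nat.eq_zero_or_pos n with rfl | hn
  · have e1 : (0 : ℝ) < 1 / ((D' : ℝ) - 1) := div_pos one_pos (by linarith)
    have e2 : (0 : ℝ) < 1 / ((D : ℝ) - 1) := div_pos one_pos (by linarith)
    rw [Nat.cast_zero, Real.zero_rpow e1.ne', Real.zero_rpow e2.ne', mul_zero, mul_zero]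
  · have hn1 : (1 : ℝ) ≤ n := by exact_mod_cast hn
    have e3 : (1 : ℝ) / ((D' : ℝ) - 1) ≤ 1 / ((D : ℝ) - 1) :=
      one_div_le_one_div_of_le (by linarith) (by linarith)
    have e4 : (n : ℝ) ^ (1 / ((D' : ℝ) - 1)) ≤ (n : ℝ) ^ (1 / ((D : ℝ) - 1)) :=
      Real.rpow_le_rpow_of_exponent_le hn1 e3
    calc C * (n : ℝ) ^ (1 / ((D' : ℝ) - 1)) ≤ max C 0 * (n : ℝ) ^ (1 / ((D' : ℝ) - 1)) :=
          mul_le_mul_of_nonneg_right (le_max_left _ _) (by positivity)
      _ ≤ max C 0 * (n : ℝ) ^ (1 / ((D : ℝ) - 1)) :=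
          mul_le_mul_of_nonneg_left e4 (le_max_right _ _)

omit [Fintype K] in
lemma Bd.restrict {k' k s D : ℕ} {c₁ : Projectivization K (Fin k → K) → Fin s}
    (ι : (Fin k' → K) →ₗ[K] (Fin k → K)) (hι : Function.Injective ι)
    (hb : Bd (fun x => c₁ (Projectivization.map ι hι x)) D) : Bd c₁ D := by
  obtain ⟨C, hC⟩ := hb
  refine ⟨C, fun n => ?_⟩
  obtain ⟨c, h1, h2⟩ := hC n
  refine ⟨c, ?_, h2⟩
  rintro ⟨φ, hφ, hc⟩
  refine h1 ⟨φ.comp ι, hφ.comp hι, fun x => ?_⟩
  show c₁ (Projectivization.map ι hι x) = c (Projectivization.map (φ.comp ι) (hφ.comp hι) x)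
  rw [hc]
  congr 1
  induction x using Projectivization.ind with
  | h v hv => rw [Projectivization.map_mk, Projectivization.map_mk, Projectivization.map_mk]; rfl

/-- The general construction. -/
theorem core {k s D : ℕ} (hk : 1 ≤ k) (hD : 2 ≤ D) (hs : 1 ≤ s) {ε : Fin D → ℕ}
    (hε : ∀ i, ε i ≠ 0) (hadd : ∀ i, ∀ x y : K, (x + y) ^ ε i = x ^ ε i + y ^ ε i)
    (Ψ : K × ZMod s → Fin s) (hΨ : Function.Surjective Ψ)
    (hinv : ∀ (τ z : K) (r : ZMod s), τ ≠ 0 → Ψ (τ ^ (∑ i, ε i) * z, r) = Ψ (z, r))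
    (c₁ : Projectivization K (Fin k → K) → Fin s)
    (hfree : ∀ (n : ℕ) (a : (Fin D → Fin n) → K) (φ : (Fin k → K) →ₗ[K] (Fin n → K))
      (r : Projectivization K (Fin k → K) → ZMod s),
      ¬∀ x, c₁ x = Ψ (frm ε a (φ x.rep), r x)) : Bd c₁ D := by
  classical
  have hD2 : (2 : ℝ) ≤ D := by exact_mod_cast hD
  have hq : 2 ≤ Fintype.card K := Fintype.one_lt_card
  obtain ⟨C, hC1, hC⟩ := num_ok hq hs hD
  refine ⟨C, fun n => ?_⟩
  rcases Nat.eq_zero_or_pos n with rfl | hn
  · refine ⟨fun _ => ⟨0, by omega⟩, ?_, fun U _ => ?_⟩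
    · rintro ⟨φ, hφ, -⟩
      have h1 := LinearMap.finrank_le_finrank_of_injective hφ
      rw [finrank_fin_fun, finrank_fin_fun] at h1
      omega
    · have h1 : finrank K U = 0 := by
        have := Submodule.finrank_le U
        rw [finrank_fin_fun] at this
        omega
      rw [h1, Nat.cast_zero, Real.zero_rpow, mul_zero]
      have : (0 : ℝ) < 1 / ((D : ℝ) - 1) := div_pos one_pos (by linarith)
      exact this.ne'
  · set B : ℝ := C * (n : ℝ) ^ (1 / ((D : ℝ) - 1)) with hB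
    set m : ℕ := ⌊B⌋₊ + 1 with hm
    have hBm : B < m := by
      rw [hm, Nat.cast_add, Nat.cast_one]
      exact Nat.lt_floor_add_one B
    obtain ⟨a, r, hgood⟩ := exists_good (K := K) (m := m) (n := n) (D := D) hε hadd (by omega)
      (by omega) Ψ hΨ (hC n m hn hBm)
    refine ⟨fun P => Ψ (frm ε a P.rep, r P), ?_, ?_⟩
    · rintro ⟨φ, hφ, hc⟩
      refine hfree n a φ (fun x => r (Projectivization.map φ hφ x)) fun x => ?_
      rw [hc x]
      have h3 : φ x.rep ≠ 0 := fun h0 => x.rep_nonzero (hφ (h0.trans (map_zero φ).symm))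
      have h4 : Projectivization.map φ hφ x = Projectivization.mk K (φ x.rep) h3 := by
        conv_lhs => rw [← x.mk_rep]
        rw [Projectivization.map_mk]
      obtain ⟨u, hu⟩ := Projectivization.exists_smul_eq_mk_rep K (φ x.rep) h3
      have h5 : u • φ x.rep = (u : K) • φ x.rep := rfl
      have h6 : (Projectivization.map φ hφ x).rep = (u : K) • φ x.rep := by
        rw [h4, ← hu, h5]
      show Ψ (frm ε a (Projectivization.map φ hφ x).rep, r (Projectivization.map φ hφ x)) = _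
      rw [h6, frm_smul]
      exact hinv _ _ _ u.ne_zero
    · rintro U ⟨i, hi⟩
      by_contra hcon
      push Not at hcon
      have hmU : m ≤ finrank K U := by
        have h1 : ⌊B⌋₊ < finrank K U := by
          have hB0 : 0 ≤ B := by positivity
          exact (Nat.floor_lt hB0).2 hcon
        omega
      set w : Fin m → (Fin n → K) := fun j => (finBasis K U (Fin.castLE hmU j) : Fin n → K)
        with hw
      have hwi : LinearIndependent K w :=
        ((finBasis K U).linearIndependent.comp _ (Fin.castLE_injective hmU)).map' U.subtype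
          (Submodule.ker_subtype U)
      obtain ⟨P, hP, hPi⟩ := hgood w hwi i
      refine hi P (hP.trans ?_) hPi
      rw [Submodule.span_le]
      rintro _ ⟨j, rfl⟩
      exact (finBasis K U (Fin.castLE hmU j)).2

/-- From the sum over the vectors to the sum over the points. -/
lemma sum_proj {k n D : ℕ} [Fintype (Projectivization K (Fin k → K))] {ε : Fin D → ℕ}
    (hD : 0 < D) (hε : ∀ i, ε i ≠ 0) {ψ : K → K} (hψ0 : ψ 0 = 0)
    (hψi : ∀ τ z : K, τ ≠ 0 → ψ (τ ^ (∑ i, ε i) * z) = ψ z) (a : (Fin D → Fin n) → K)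
    (φ : (Fin k → K) →ₗ[K] (Fin n → K)) (hsum : ∑ x, ψ (frm ε a (φ x)) = 0) :
    ∑ P : Projectivization K (Fin k → K), ψ (frm ε a (φ P.rep)) = 0 := by
  have hg : ∀ (t : K) (y : Fin k → K), t ≠ 0 →
      ψ (frm ε a (φ (t • y))) = ψ (frm ε a (φ y)) := by
    intro t y ht
    rw [map_smul, frm_smul]
    exact hψi t _ ht
  have h1 := sum_points (K := K) (fun y => ψ (frm ε a (φ y))) hg
  rw [hsum, map_zero, frm_zero hD hε, hψ0] at h1
  linear_combination h1

/-- Colours as values of `ψ`. -/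
theorem caseV [DecidableEq K] {k s D : ℕ} (hk : 1 ≤ k) (hD : 2 ≤ D) (hs : 1 ≤ s)
    {ε : Fin D → ℕ} (hε : ∀ i, ε i ≠ 0)
    (hadd : ∀ i, ∀ x y : K, (x + y) ^ ε i = x ^ ε i + y ^ ε i)
    (ψ : K → K) (hψ0 : ψ 0 = 0) (hψ1 : ∃ z, ψ z = 1)
    (hψi : ∀ τ z : K, τ ≠ 0 → ψ (τ ^ (∑ i, ε i) * z) = ψ z)
    (hψs : ∀ (n : ℕ) (a : (Fin D → Fin n) → K) (φ : (Fin k → K) →ₗ[K] (Fin n → K)),
      ∑ x, ψ (frm ε a (φ x)) = 0)
    (hM : (Finset.univ.image ψ).card ≤ s)
    (hM' : (Finset.univ.image ψ).card < s ∨ (Finset.univ.image ψ).card = 2 ∨ (s : K) = 0)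
    (c₁ : Projectivization K (Fin k → K) → Fin s) : Bd c₁ D := by
  classical
  have : NeZero s := ⟨by omega⟩
  have : Fintype (Projectivization K (Fin k → K)) := Fintype.ofFinite _
  set M : Finset K := Finset.univ.image ψ with hMdef
  have h0M : (0 : K) ∈ M := Finset.mem_image.2 ⟨0, Finset.mem_univ _, hψ0⟩
  have h1M : (1 : K) ∈ M := by
    obtain ⟨z, hz⟩ := hψ1
    exact Finset.mem_image.2 ⟨z, Finset.mem_univ _, hz⟩
  have hN : ∑ i : Fin s, ∑ x : Projectivization K (Fin k → K),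
      (if c₁ x = i then (1 : K) else 0) = 1 := by
    refine Finset.sum_comm.trans (Eq.trans ?_ (card_points (K := K) hk))
    refine Finset.sum_congr rfl fun x _ => ?_
    rw [Finset.sum_ite_eq, if_pos (Finset.mem_univ _)]
  obtain ⟨v, hvM, hvs, hv0⟩ := exists_val M h0M h1M hM hM' _ hN
  have hval : ∑ x : Projectivization K (Fin k → K), v (c₁ x) ≠ 0 := by
    intro hcon
    apply hv0
    refine Eq.trans ?_ hcon
    simp_rw [Finset.mul_sum]
    rw [Finset.sum_comm]
    refine Finset.sum_congr rfl fun x _ => ?_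
    simp_rw [mul_ite, mul_one, mul_zero]
    rw [Finset.sum_ite_eq, if_pos (Finset.mem_univ _)]
  have hch : ∀ y : K, y ∈ M → ∃ i, v i = y := fun y hy => hvs y hy
  have hψM : ∀ z, ψ z ∈ M := fun z => Finset.mem_image.2 ⟨z, Finset.mem_univ _, rfl⟩
  choose! i₀ hi₀ using hch
  let eq : ZMod s ≃ Fin s := Fintype.equivOfCardEq (by rw [ZMod.card, Fintype.card_fin])
  let Ψ : K × ZMod s → Fin s := fun z => if v (eq z.2) = ψ z.1 then eq z.2 else i₀ (ψ z.1)
  have hΨv : ∀ z, v (Ψ z) = ψ z.1 := by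
    intro z
    by_cases hz : v (eq z.2) = ψ z.1
    · simp only [Ψ, if_pos hz]
      exact hz
    · simp only [Ψ, if_neg hz]
      exact hi₀ _ (hψM z.1)
  have hΨ : Function.Surjective Ψ := by
    intro i
    obtain ⟨z, -, hz⟩ := Finset.mem_image.1 (hvM i)
    refine ⟨(z, eq.symm i), ?_⟩
    simp only [Ψ, Equiv.apply_symm_apply]
    rw [if_pos hz.symm]
  refine core hk hD hs hε hadd Ψ hΨ (fun τ z r hτ => ?_) c₁ fun n a φ r hcon => ?_
  · simp only [Ψ]
    rw [hψi τ z hτ]
  · apply hval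
    rw [← sum_proj (by omega) hε hψ0 hψi a φ (hψs n a φ)]
    refine Finset.sum_congr rfl fun x _ => ?_
    rw [hcon x, hΨv]

/-- A colour is missing. -/
theorem caseA {k s : ℕ} (hs : 1 ≤ s) (c₁ : Projectivization K (Fin k → K) → Fin s) (j : Fin s)
    (hj : ∀ x, c₁ x ≠ j) (hD : 2 ≤ (k - 1) * (Fintype.card K - 1)) :
    Bd c₁ ((k - 1) * (Fintype.card K - 1)) := by
  classical
  have : NeZero s := ⟨by omega⟩
  have : Fintype (Projectivization K (Fin k → K)) := Fintype.ofFinite _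
  have hq : 2 ≤ Fintype.card K := Fintype.one_lt_card
  have hk : 1 ≤ k := by
    rcases Nat.eq_zero_or_pos k with rfl | hk0
    · simp at hD
    · exact hk0
  have hε : ∀ i : Fin ((k - 1) * (Fintype.card K - 1)),
      (fun _ => Fintype.card K ^ 0 : Fin ((k - 1) * (Fintype.card K - 1)) → ℕ) i ≠ 0 := by
    intro i
    simp
  have hQ : ∀ x y : K, (x + y) ^ Fintype.card K = x ^ Fintype.card K + y ^ Fintype.card K := by
    intro x y
    rw [FiniteField.pow_card, FiniteField.pow_card, FiniteField.pow_card]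
  have hsum : (∑ _i : Fin ((k - 1) * (Fintype.card K - 1)), Fintype.card K ^ 0) =
      (k - 1) * (Fintype.card K - 1) := by simp
  have hpw : ∀ t : K, t ≠ 0 → t ^ ((k - 1) * (Fintype.card K - 1)) = 1 := by
    intro t ht
    rw [mul_comm, pow_mul, FiniteField.pow_card_sub_one_eq_one t ht, one_pow]
  let eq : ZMod s ≃ Fin s := Fintype.equivOfCardEq (by rw [ZMod.card, Fintype.card_fin])
  let Ψ : K × ZMod s → Fin s := fun z => if z.1 = 1 then eq z.2 else j
  have hΨ : Function.Surjective Ψ := by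
    intro i
    refine ⟨(1, eq.symm i), ?_⟩
    simp only [Ψ, if_true, Equiv.apply_symm_apply]
  refine core (ε := fun _ => Fintype.card K ^ 0) hk hD hs hε (fun i x y => by simp) Ψ hΨ
    (fun τ z r hτ => ?_) c₁ fun n a φ r hcon => ?_
  · rw [hsum, hpw τ hτ, one_mul]
  · have h1 : ∀ x : Projectivization K (Fin k → K),
        frm (fun _ => Fintype.card K ^ 0) a (φ x.rep) = 1 := by
      intro x
      by_contra hne
      refine hj x ?_
      rw [hcon x]
      simp only [Ψ, if_neg hne]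
    have h2 := Wt_sum (K := K) (Q := Fintype.card K) (t := 1) (k := k) hq le_rfl (pow_one _)
      (W := (k - 1) * (Fintype.card K - 1)) (by
        rw [one_mul]
        exact Nat.mul_lt_mul_of_pos_right (by omega) (by omega))
      (Wt_frm (by omega) hQ (fun _ => 0) a φ)
    have h3 := sum_proj (ψ := fun z => z) (by omega) hε rfl
      (fun τ z hτ => by rw [hsum, hpw τ hτ, one_mul]) a φ h2
    have h4 := card_points (K := K) hk
    rw [Finset.sum_congr rfl fun x _ => h1 x, h4] at h3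
    exact one_ne_zero h3

end Pool.Agent.H55.EB
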