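import Mathlib

/-!
# Forms with twisted slots, functions of small weight (MP_d770f7_co, upper bounds for the exponent)
-/

set_option autoImplicit false

open Finset Module

namespace Pool.Agent.H55.EB

variable {K : Type} [Field K]

/-- The form with the exponents `ε` of the slots and the coefficients `a`. -/
def frm {n D : ℕ} (ε : Fin D → ℕ) (a : (Fin D → Fin n) → K) (x : Fin n → K) : K :=
  ∑ j : Fin D → Fin n, a j * ∏ i, x (j i) ^ ε i

lemma frm_add {n D : ℕ} (ε : Fin D → ℕ) (a b : (Fin D → Fin n) → K) (x : Fin n → K) :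
    frm ε (a + b) x = frm ε a x + frm ε b x := by
  unfold frm
  rw [← Finset.sum_add_distrib]
  refine Finset.sum_congr rfl fun j _ => ?_
  rw [Pi.add_apply, add_mul]

lemma frm_const_mul {n D : ℕ} (ε : Fin D → ℕ) (c : K) (a : (Fin D → Fin n) → K)
    (x : Fin n → K) : frm ε (fun j => c * a j) x = c * frm ε a x := by
  unfold frm
  rw [Finset.mul_sum]
  refine Finset.sum_congr rfl fun j _ => ?_
  ring

lemma frm_sum {n D : ℕ} {ι : Type} (ε : Fin D → ℕ) (s : Finset ι) (a : ι → (Fin D → Fin n) → K)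
    (x : Fin n → K) : frm ε (fun j => ∑ i ∈ s, a i j) x = ∑ i ∈ s, frm ε (a i) x := by
  unfold frm
  rw [Finset.sum_comm]
  refine Finset.sum_congr rfl fun j _ => ?_
  rw [Finset.sum_mul]

lemma frm_smul {n D : ℕ} (ε : Fin D → ℕ) (a : (Fin D → Fin n) → K) (t : K) (x : Fin n → K) :
    frm ε a (t • x) = t ^ (∑ i, ε i) * frm ε a x := by
  unfold frm
  rw [Finset.mul_sum]
  refine Finset.sum_congr rfl fun j _ => ?_
  simp only [Pi.smul_apply, smul_eq_mul, mul_pow, Finset.prod_mul_distrib,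
    Finset.prod_pow_eq_pow_sum]
  ring

lemma frm_zero {n D : ℕ} {ε : Fin D → ℕ} (hD : 0 < D) (hε : ∀ i, ε i ≠ 0)
    (a : (Fin D → Fin n) → K) : frm ε a 0 = 0 := by
  unfold frm
  refine Finset.sum_eq_zero fun j _ => ?_
  rw [Finset.prod_eq_zero (Finset.mem_univ (⟨0, hD⟩ : Fin D)) (by
    rw [Pi.zero_apply]
    exact zero_pow (hε _)), mul_zero]

lemma pow_sum_of_add {e : ℕ} (he : e ≠ 0) (hadd : ∀ x y : K, (x + y) ^ e = x ^ e + y ^ e)
    {ι : Type} (s : Finset ι) (f : ι → K) : (∑ i ∈ s, f i) ^ e = ∑ i ∈ s, f i ^ e := by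
  classical
  induction s using Finset.induction_on with
  | empty => simp [he]
  | insert i s hi ih => rw [Finset.sum_insert hi, Finset.sum_insert hi, hadd, ih]

/-- A product of linear forms. -/
lemma frm_prod {n D : ℕ} {ε : Fin D → ℕ} (hε : ∀ i, ε i ≠ 0)
    (hadd : ∀ i, ∀ x y : K, (x + y) ^ ε i = x ^ ε i + y ^ ε i) (l : Fin D → Fin n → K)
    (x : Fin n → K) :
    frm ε (fun j => ∏ i, l i (j i) ^ ε i) x = ∏ i, (∑ b, l i b * x b) ^ ε i := by
  unfold frm
  rw [Finset.prod_congr rfl fun i _ => pow_sum_of_add (hε i) (hadd i) Finset.univ _,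
    Finset.prod_univ_sum, Fintype.piFinset_univ]
  refine Finset.sum_congr rfl fun j _ => ?_
  rw [← Finset.prod_mul_distrib]
  refine Finset.prod_congr rfl fun i _ => ?_
  rw [mul_pow]

lemma lin_apply {k n : ℕ} (φ : (Fin k → K) →ₗ[K] (Fin n → K)) (x : Fin k → K) (b : Fin n) :
    φ x b = ∑ c, φ (Pi.single c 1) b * x c := by
  have h : x = ∑ c, x c • (Pi.single c 1 : Fin k → K) := by
    funext i
    simp [Finset.sum_apply, Pi.single_apply]
  conv_lhs => rw [h, map_sum, Finset.sum_apply]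
  refine Finset.sum_congr rfl fun c _ => ?_
  rw [map_smul, Pi.smul_apply, smul_eq_mul, mul_comm]

/-- The monomial with the exponents `∑ Q ^ b`, `b` in `u c`. -/
def mon (Q : ℕ) {k : ℕ} (u : Fin k → Multiset ℕ) (x : Fin k → K) : K :=
  ∏ c, ((u c).map fun b => x c ^ (Q ^ b)).prod

variable (K) in
/-- The functions of weight at most `W`. -/
def Wt (Q k W : ℕ) : Submodule K ((Fin k → K) → K) :=
  Submodule.span K {f | ∃ u : Fin k → Multiset ℕ, ∑ c, (u c).card ≤ W ∧ f = mon Q u}

lemma Wt_mono {Q k W W' : ℕ} (h : W ≤ W') : Wt K Q k W ≤ Wt K Q k W' :=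
  Submodule.span_mono (by
    rintro f ⟨u, hu, rfl⟩
    exact ⟨u, hu.trans h, rfl⟩)

lemma mon_mul {Q k : ℕ} (u u' : Fin k → Multiset ℕ) :
    (mon Q u : (Fin k → K) → K) * mon Q u' = mon Q (u + u') := by
  funext x
  show mon Q u x * mon Q u' x = mon Q (u + u') x
  unfold mon
  rw [← Finset.prod_mul_distrib]
  refine Finset.prod_congr rfl fun c _ => ?_
  rw [Pi.add_apply, Multiset.map_add, Multiset.prod_add]

lemma Wt_mul {Q k W W' : ℕ} {f g : (Fin k → K) → K} (hf : f ∈ Wt K Q k W)
    (hg : g ∈ Wt K Q k W') : f * g ∈ Wt K Q k (W + W') := by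
  unfold Wt at hf
  induction hf using Submodule.span_induction with
  | mem f hf =>
    obtain ⟨u, hu, rfl⟩ := hf
    unfold Wt at hg
    induction hg using Submodule.span_induction with
    | mem g hg =>
      obtain ⟨u', hu', rfl⟩ := hg
      refine Submodule.subset_span ⟨u + u', ?_, mon_mul u u'⟩
      simp only [Pi.add_apply, Multiset.card_add, Finset.sum_add_distrib]
      omega
    | zero =>
      rw [mul_zero]
      exact Submodule.zero_mem _
    | add x y _ _ hx hy =>
      rw [mul_add]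
      exact Submodule.add_mem _ hx hy
    | smul a x _ hx =>
      rw [mul_smul_comm]
      exact Submodule.smul_mem _ _ hx
  | zero =>
    rw [zero_mul]
    exact Submodule.zero_mem _
  | add x y _ _ hx hy =>
    rw [add_mul]
    exact Submodule.add_mem _ hx hy
  | smul a x _ hx =>
    rw [smul_mul_assoc]
    exact Submodule.smul_mem _ _ hx

lemma Wt_one {Q k : ℕ} : (1 : (Fin k → K) → K) ∈ Wt K Q k 0 := by
  refine Submodule.subset_span ⟨0, by simp, ?_⟩
  funext x
  unfold mon
  simp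

lemma Wt_pow {Q k W : ℕ} {f : (Fin k → K) → K} (hf : f ∈ Wt K Q k W) (n : ℕ) :
    f ^ n ∈ Wt K Q k (n * W) := by
  induction n with
  | zero =>
    rw [pow_zero, zero_mul]
    exact Wt_one
  | succ n ih =>
    rw [pow_succ, Nat.succ_mul]
    exact Wt_mul ih hf

lemma Wt_frob {Q k W : ℕ} (hQ0 : Q ≠ 0) (hQ : ∀ x y : K, (x + y) ^ Q = x ^ Q + y ^ Q)
    {f : (Fin k → K) → K} (hf : f ∈ Wt K Q k W) : (fun x => f x ^ Q) ∈ Wt K Q k W := by
  unfold Wt at hf
  induction hf using Submodule.span_induction with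
  | mem f hf =>
    obtain ⟨u, hu, rfl⟩ := hf
    refine Submodule.subset_span ⟨fun c => (u c).map (· + 1), by simpa using hu, ?_⟩
    funext x
    unfold mon
    rw [← Finset.prod_pow]
    refine Finset.prod_congr rfl fun c _ => ?_
    rw [← Multiset.prod_map_pow, Multiset.map_map]
    congr 1
    refine Multiset.map_congr rfl fun b _ => ?_
    show (x c ^ Q ^ b) ^ Q = x c ^ Q ^ (b + 1)
    rw [← pow_mul, ← pow_succ]
  | zero =>
    have : (fun x : Fin k → K => ((0 : (Fin k → K) → K) x) ^ Q) = 0 := by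
      funext x
      exact zero_pow hQ0
    rw [this]
    exact Submodule.zero_mem _
  | add x y _ _ hx hy =>
    have : (fun z : Fin k → K => ((x + y) z) ^ Q) =
        (fun z => x z ^ Q) + fun z => y z ^ Q := by
      funext z
      exact hQ _ _
    rw [this]
    exact Submodule.add_mem _ hx hy
  | smul a x _ hx =>
    have : (fun z : Fin k → K => ((a • x) z) ^ Q) = (a ^ Q) • fun z => x z ^ Q := by
      funext z
      exact mul_pow a (x z) Q
    rw [this]
    exact Submodule.smul_mem _ _ hx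

lemma Wt_frob_pow {Q k W : ℕ} (hQ0 : Q ≠ 0) (hQ : ∀ x y : K, (x + y) ^ Q = x ^ Q + y ^ Q)
    {f : (Fin k → K) → K} (hf : f ∈ Wt K Q k W) (c : ℕ) :
    (fun x => f x ^ (Q ^ c)) ∈ Wt K Q k W := by
  induction c with
  | zero => simpa using hf
  | succ c ih =>
    have := Wt_frob hQ0 hQ ih
    simpa only [pow_succ, pow_mul] using this

lemma Wt_coord {Q k : ℕ} (c : Fin k) : (fun x : Fin k → K => x c) ∈ Wt K Q k 1 := by
  classical
  refine Submodule.subset_span ⟨fun c' => if c' = c then {0} else 0, ?_, ?_⟩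
  · rw [Finset.sum_eq_single c]
    · simp
    · intro c' _ hc'
      simp [hc']
    · intro h
      exact absurd (Finset.mem_univ c) h
  · funext x
    unfold mon
    rw [Finset.prod_eq_single c]
    · simp
    · intro c' _ hc'
      simp [hc']
    · intro h
      exact absurd (Finset.mem_univ c) h

lemma Wt_lin {Q k n : ℕ} (φ : (Fin k → K) →ₗ[K] (Fin n → K)) (b : Fin n) :
    (fun x => φ x b) ∈ Wt K Q k 1 := by
  have : (fun x => φ x b) = ∑ c, φ (Pi.single c 1) b • fun x : Fin k → K => x c := by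
    funext x
    rw [lin_apply φ x b, Finset.sum_apply]
    rfl
  rw [this]
  exact Submodule.sum_mem _ fun c _ => Submodule.smul_mem _ _ (Wt_coord c)

lemma Wt_prod {Q k : ℕ} {ι : Type} (s : Finset ι) (f : ι → (Fin k → K) → K)
    (h : ∀ i ∈ s, f i ∈ Wt K Q k 1) : (fun x => ∏ i ∈ s, f i x) ∈ Wt K Q k s.card := by
  classical
  induction s using Finset.induction_on with
  | empty =>
    simp only [Finset.prod_empty, Finset.card_empty]
    exact Wt_one
  | insert i s hi ih =>
    rw [Finset.card_insert_of_notMem hi, add_comm]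
    have h1 := Wt_mul (h i (Finset.mem_insert_self i s))
      (ih fun j hj => h j (Finset.mem_insert_of_mem hj))
    have h2 : (fun x => ∏ j ∈ insert i s, f j x) = f i * fun x => ∏ j ∈ s, f j x := by
      funext x
      exact Finset.prod_insert hi
    rw [h2]
    exact h1

lemma Wt_frm {Q k n D : ℕ} (hQ0 : Q ≠ 0) (hQ : ∀ x y : K, (x + y) ^ Q = x ^ Q + y ^ Q)
    (b : Fin D → ℕ) (a : (Fin D → Fin n) → K) (φ : (Fin k → K) →ₗ[K] (Fin n → K)) :
    (fun x => frm (fun i => Q ^ b i) a (φ x)) ∈ Wt K Q k D := by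
  have : (fun x => frm (fun i => Q ^ b i) a (φ x)) =
      ∑ j : Fin D → Fin n, a j • fun x => ∏ i, φ x (j i) ^ (Q ^ b i) := by
    funext x
    rw [Finset.sum_apply]
    rfl
  rw [this]
  refine Submodule.sum_mem _ fun j _ => Submodule.smul_mem _ _ ?_
  have h1 := Wt_prod (K := K) (Q := Q) (k := k) (Finset.univ : Finset (Fin D))
    (fun i x => φ x (j i) ^ (Q ^ b i)) fun i _ => Wt_frob_pow hQ0 hQ (Wt_lin φ (j i)) (b i)
  rwa [Finset.card_univ, Fintype.card_fin] at h1

lemma sum_period {t : ℕ} (g : ℕ → ℕ) (hg : ∀ b, g (b + t) = g b) (b : ℕ) :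
    ∑ c ∈ Finset.range t, g (b + c) = ∑ c ∈ Finset.range t, g c := by
  induction b with
  | zero => simp
  | succ b ih =>
    rw [← ih]
    have h1 := Finset.sum_range_succ (fun c => g (b + c)) t
    have h2 := Finset.sum_range_succ' (fun c => g (b + c)) t
    have h3 : ∑ c ∈ Finset.range t, g (b + 1 + c) = ∑ c ∈ Finset.range t, g (b + (c + 1)) :=
      Finset.sum_congr rfl fun c _ => by
        congr 1
        omega
    have h4 := hg b
    rw [h3]
    simp only [add_zero] at h2
    omega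

lemma sum_multiset {ι : Type} (s : Finset ι) (L : Multiset ℕ) (f : ℕ → ι → ℕ) :
    ∑ c ∈ s, (L.map fun b => f b c).sum = (L.map fun b => ∑ c ∈ s, f b c).sum := by
  induction L using Multiset.induction_on with
  | empty => simp
  | cons b L ih =>
    simp only [Multiset.map_cons, Multiset.sum_cons, Finset.sum_add_distrib]
    rw [ih]

/-- The number of powers of `Q` in a sum divisible by `Q ^ t - 1`. -/
lemma weight {Q t : ℕ} (hQ : 2 ≤ Q) (ht : 1 ≤ t) (L : Multiset ℕ) (hL : L ≠ 0)
    (hd : Q ^ t - 1 ∣ (L.map fun b => Q ^ b).sum) : t * (Q - 1) ≤ L.card := by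
  have hQt : 2 ≤ Q ^ t := by
    calc 2 ≤ Q := hQ
      _ = Q ^ 1 := (pow_one Q).symm
      _ ≤ Q ^ t := Nat.pow_le_pow_right (by omega) ht
  set M := Q ^ t - 1 with hM
  have h0 : ((Q : ℕ) : ZMod M) ^ t = 1 := by
    have h1 : ((Q ^ t : ℕ) : ZMod M) = ((M + 1 : ℕ) : ZMod M) := by
      congr 1
      omega
    rw [Nat.cast_pow] at h1
    rw [h1]
    simp
  have h1 : ∀ c, M ∣ (L.map fun b => Q ^ ((b + c) % t)).sum := by
    intro c
    rw [← ZMod.natCast_eq_zero_iff] at hd ⊢
    have h2 : (((L.map fun b => Q ^ ((b + c) % t)).sum : ℕ) : ZMod M) =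
        (Q : ZMod M) ^ c * (((L.map fun b => Q ^ b).sum : ℕ) : ZMod M) := by
      rw [Nat.cast_multiset_sum, Nat.cast_multiset_sum, Multiset.map_map, Multiset.map_map,
        ← Multiset.sum_map_mul_left]
      congr 1
      refine Multiset.map_congr rfl fun b _ => ?_
      show ((Q ^ ((b + c) % t) : ℕ) : ZMod M) = (Q : ZMod M) ^ c * ((Q ^ b : ℕ) : ZMod M)
      rw [Nat.cast_pow, Nat.cast_pow, ← pow_eq_pow_mod (b + c) h0, ← pow_add, add_comm]
    rw [h2, hd, mul_zero]
  have h2 : ∀ c, M ≤ (L.map fun b => Q ^ ((b + c) % t)).sum := by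
    intro c
    refine Nat.le_of_dvd ?_ (h1 c)
    obtain ⟨b, hb⟩ := Multiset.exists_mem_of_ne_zero hL
    refine lt_of_lt_of_le (pow_pos (by omega : 0 < Q) ((b + c) % t)) ?_
    exact Multiset.single_le_sum (fun _ _ => Nat.zero_le _) _
      (Multiset.mem_map_of_mem (fun b => Q ^ ((b + c) % t)) hb)
  have h3 : ∑ c ∈ Finset.range t, (L.map fun b => Q ^ ((b + c) % t)).sum =
      L.card * ∑ c ∈ Finset.range t, Q ^ c := by
    rw [sum_multiset]
    have h4 : ∀ b, ∑ c ∈ Finset.range t, Q ^ ((b + c) % t) = ∑ c ∈ Finset.range t, Q ^ c := by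
      intro b
      rw [sum_period (fun m => Q ^ (m % t)) (fun b => by rw [Nat.add_mod_right]) b]
      refine Finset.sum_congr rfl fun c hc => ?_
      rw [Nat.mod_eq_of_lt (Finset.mem_range.1 hc)]
    simp_rw [h4]
    rw [Multiset.map_const', Multiset.sum_replicate, smul_eq_mul]
  have h4 : t * M ≤ L.card * ∑ c ∈ Finset.range t, Q ^ c := by
    rw [← h3]
    have := Finset.card_nsmul_le_sum (Finset.range t)
      (fun c => (L.map fun b => Q ^ ((b + c) % t)).sum) M fun c _ => h2 c
    rwa [Finset.card_range, smul_eq_mul] at this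
  have h5 : (∑ c ∈ Finset.range t, Q ^ c) * (Q - 1) = M := by
    obtain ⟨Q', rfl⟩ : ∃ Q', Q = Q' + 1 := ⟨Q - 1, by omega⟩
    have := geom_sum_mul_add Q' t
    simp only [Nat.add_sub_cancel]
    omega
  have h6 : t * (Q - 1) * M ≤ L.card * M := by
    calc t * (Q - 1) * M = t * M * (Q - 1) := by ring
      _ ≤ L.card * (∑ c ∈ Finset.range t, Q ^ c) * (Q - 1) := Nat.mul_le_mul_right _ h4
      _ = L.card * ((∑ c ∈ Finset.range t, Q ^ c) * (Q - 1)) := by ring
      _ = L.card * M := by rw [h5]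
  exact Nat.le_of_mul_le_mul_right h6 (by omega)

lemma prod_map_pow' (y : K) (Q : ℕ) (L : Multiset ℕ) :
    (L.map fun b => y ^ (Q ^ b)).prod = y ^ (L.map fun b => Q ^ b).sum := by
  induction L using Multiset.induction_on with
  | empty => simp
  | cons b L ih => simp only [Multiset.map_cons, Multiset.prod_cons, Multiset.sum_cons, ih, pow_add]

lemma sum_pow_zero [Fintype K] {u : ℕ} (h : u ≠ 0 → ¬Fintype.card K - 1 ∣ u) :
    ∑ y : K, y ^ u = 0 := by
  classical
  by_cases hi : u = 0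
  · simp [hi]
  let φ : Kˣ ↪ K := ⟨fun x => x, Units.val_injective⟩
  have h1 : Finset.univ.map φ = Finset.univ \ {0} := by
    ext x
    simp only [Finset.mem_map, Finset.mem_univ, Function.Embedding.coeFn_mk, true_and,
      Finset.mem_sdiff, Finset.mem_singleton, φ]
    exact ⟨fun ⟨a, ha⟩ => ha ▸ a.ne_zero, fun h => ⟨Units.mk0 x h, rfl⟩⟩
  calc ∑ x : K, x ^ u = ∑ x ∈ Finset.univ \ {(0 : K)}, x ^ u := by
        rw [← Finset.sum_sdiff (Finset.subset_univ ({0} : Finset K)), Finset.sum_singleton,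
          zero_pow hi, add_zero]
    _ = ∑ x : Kˣ, (x ^ u : K) := by simp [φ, ← h1, Finset.sum_map]
    _ = 0 := by
        rw [FiniteField.sum_pow_units K u, if_neg (h hi)]

/-- The sum of a function of small weight over all vectors. -/
lemma Wt_sum [Fintype K] {Q t k W : ℕ} (hQ : 2 ≤ Q) (ht : 1 ≤ t) (hq : Q ^ t = Fintype.card K)
    (hW : W < k * (t * (Q - 1))) {f : (Fin k → K) → K} (hf : f ∈ Wt K Q k W) :
    ∑ x, f x = 0 := by
  classical
  unfold Wt at hf
  induction hf using Submodule.span_induction with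
  | mem f hf =>
    obtain ⟨u, hu, rfl⟩ := hf
    have h1 : ∑ x : Fin k → K, mon Q u x =
        ∏ c, ∑ y : K, ((u c).map fun b => y ^ (Q ^ b)).prod := by
      rw [Finset.prod_univ_sum, Fintype.piFinset_univ]
      rfl
    rw [h1]
    obtain ⟨c, hc⟩ : ∃ c, (u c).card < t * (Q - 1) := by
      by_contra hcon
      push Not at hcon
      have h2 := Finset.card_nsmul_le_sum (Finset.univ : Finset (Fin k))
        (fun c => (u c).card) (t * (Q - 1)) fun c _ => hcon c
      rw [Finset.card_univ, Fintype.card_fin, smul_eq_mul] at h2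
      omega
    refine Finset.prod_eq_zero (Finset.mem_univ c) ?_
    simp_rw [prod_map_pow']
    refine sum_pow_zero fun hu0 hd => ?_
    have hL : u c ≠ 0 := by
      intro h
      rw [h] at hu0
      simp at hu0
    rw [← hq] at hd
    exact absurd (weight hQ ht (u c) hL hd) (by omega)
  | zero => simp
  | add x y _ _ hx hy =>
    simp only [Pi.add_apply, Finset.sum_add_distrib, hx, hy, add_zero]
  | smul a x _ hx =>
    simp only [Pi.smul_apply, smul_eq_mul, ← Finset.mul_sum, hx, mul_zero]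

end Pool.Agent.H55.EB
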