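import Pool.Agent.H55.EB.Core

/-!
# Restriction to a line
-/

set_option autoImplicit false

open Finset Module

namespace Pool.Agent.H55.EB

variable {K : Type} [Field K] [Fintype K]

/-- The polynomial of a form on a line. -/
noncomputable def lpol {n D : ℕ} (a : (Fin D → Fin n) → K) (y v : Fin n → K) : Polynomial K :=
  ∑ j : Fin D → Fin n, Polynomial.C (a j) *
    ∏ i, (Polynomial.C (v (j i)) * Polynomial.X + Polynomial.C (y (j i)))

omit [Fintype K] in
lemma eval_lpol {n D : ℕ} (a : (Fin D → Fin n) → K) (y v : Fin n → K) (t : K) :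
    (lpol a y v).eval t = frm (fun _ => 1) a (y + t • v) := by
  unfold lpol frm
  rw [Polynomial.eval_finsetSum]
  refine Finset.sum_congr rfl fun j _ => ?_
  rw [Polynomial.eval_mul, Polynomial.eval_C, Polynomial.eval_prod]
  congr 1
  refine Finset.prod_congr rfl fun i _ => ?_
  rw [Polynomial.eval_add, Polynomial.eval_mul, Polynomial.eval_C, Polynomial.eval_C,
    Polynomial.eval_X, pow_one, Pi.add_apply, Pi.smul_apply, smul_eq_mul]
  ring

omit [Fintype K] in
lemma natDegree_lpol {n D : ℕ} (a : (Fin D → Fin n) → K) (y v : Fin n → K) :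
    (lpol a y v).natDegree ≤ D := by
  unfold lpol
  refine Polynomial.natDegree_sum_le_of_forall_le _ _ fun j _ => ?_
  refine (Polynomial.natDegree_C_mul_le _ _).trans ?_
  refine (Polynomial.natDegree_prod_le _ _).trans ?_
  have h1 : ∑ i : Fin D, (Polynomial.C (v (j i)) * Polynomial.X +
      Polynomial.C (y (j i))).natDegree ≤ ∑ _i : Fin D, 1 :=
    Finset.sum_le_sum fun i _ => Polynomial.natDegree_linear_le
  simpa using h1

omit [Fintype K] in
lemma coeff_lpol {n D : ℕ} (a : (Fin D → Fin n) → K) (y v : Fin n → K) :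
    (lpol a y v).coeff D = frm (fun _ => 1) a v := by
  unfold lpol frm
  rw [Polynomial.finsetSum_coeff]
  refine Finset.sum_congr rfl fun j _ => ?_
  rw [Polynomial.coeff_C_mul]
  congr 1
  have h := Polynomial.coeff_prod_of_natDegree_le (s := (Finset.univ : Finset (Fin D)))
    (fun i => Polynomial.C (v (j i)) * Polynomial.X + Polynomial.C (y (j i))) 1
    fun i _ => Polynomial.natDegree_linear_le
  rw [Finset.card_univ, Fintype.card_fin, mul_one] at h
  rw [h]
  refine Finset.prod_congr rfl fun i _ => ?_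
  simp

omit [Fintype K] in
/-- A complement of a vector in the plane. -/
lemma exists_compl (v : Fin 2 → K) (hv : v ≠ 0) :
    ∃ y : Fin 2 → K, ∀ x : Fin 2 → K, ∃ α β : K, x = α • y + β • v := by
  by_cases h0 : v 0 = 0
  · have h1 : v 1 ≠ 0 := by
      intro h1
      apply hv
      funext i
      fin_cases i
      · exact h0
      · exact h1
    refine ⟨![1, 0], fun x => ⟨x 0, x 1 / v 1, ?_⟩⟩
    funext i
    fin_cases i
    · simp [h0]
    · simp [h1]
  · refine ⟨![0, 1], fun x => ⟨x 1 - x 0 / v 0 * v 1, x 0 / v 0, ?_⟩⟩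
    funext i
    fin_cases i
    · simp [h0]
    · simp

omit [Fintype K] in
/-- The number of zeros of a form on a line. -/
lemma zeros_le {n D : ℕ} [Fintype (Projectivization K (Fin 2 → K))]
    (a : (Fin D → Fin n) → K) (φ : (Fin 2 → K) →ₗ[K] (Fin n → K))
    (P₀ : Projectivization K (Fin 2 → K)) (h0 : frm (fun _ => 1) a (φ P₀.rep) ≠ 0)
    [DecidablePred fun P : Projectivization K (Fin 2 → K) =>
      frm (fun _ => 1) a (φ P.rep) = 0] :
    (Finset.univ.filter fun P : Projectivization K (Fin 2 → K) =>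
      frm (fun _ => 1) a (φ P.rep) = 0).card ≤ D := by
  classical
  obtain ⟨y, hy⟩ := exists_compl P₀.rep P₀.rep_nonzero
  set p := lpol a (φ y) (φ P₀.rep) with hp
  have hp0 : p ≠ 0 := by
    intro h
    apply h0
    rw [← coeff_lpol a (φ y) (φ P₀.rep), ← hp, h, Polynomial.coeff_zero]
  have hne : ∀ t : K, y + t • P₀.rep ≠ 0 := by
    intro t ht
    obtain ⟨α, β, h1⟩ := hy (Pi.single 0 1)
    obtain ⟨α', β', h2⟩ := hy (Pi.single 1 1)
    have h3 : y = -(t • P₀.rep) := eq_neg_of_add_eq_zero_left ht
    have h4 : (Pi.single 0 1 : Fin 2 → K) = (β - α * t) • P₀.rep := by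
      rw [h1, h3, sub_smul, mul_smul, smul_neg]
      abel
    have h5 : (Pi.single 1 1 : Fin 2 → K) = (β' - α' * t) • P₀.rep := by
      rw [h2, h3, sub_smul, mul_smul, smul_neg]
      abel
    have e1 := congrFun h4 0
    have e2 := congrFun h4 1
    have e3 := congrFun h5 0
    have e4 := congrFun h5 1
    simp only [Pi.smul_apply, smul_eq_mul] at e1 e2 e3 e4
    simp at e1 e2 e3 e4
    rcases e2 with e2 | e2
    · rw [e2] at e1
      simp at e1
    · rw [e2] at e4
      simp at e4
  refine (Finset.card_le_card (t := p.roots.toFinset.image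
    fun t => Projectivization.mk K (y + t • P₀.rep) (hne t)) ?_).trans
    (Finset.card_image_le.trans ((Multiset.toFinset_card_le _).trans
      ((Polynomial.card_roots' p).trans (natDegree_lpol a _ _))))
  intro P hP
  have hP0 := (Finset.mem_filter.1 hP).2
  obtain ⟨α, β, h1⟩ := hy P.rep
  have hα : α ≠ 0 := by
    intro hα
    rw [hα, zero_smul, zero_add] at h1
    rw [h1, map_smul, frm_smul] at hP0
    rcases mul_eq_zero.1 hP0 with h2 | h2
    · have h3 := eq_zero_of_pow_eq_zero h2
      rw [h3, zero_smul] at h1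
      exact P.rep_nonzero h1
    · exact h0 h2
  have h2 : P.rep = α • (y + (β / α) • P₀.rep) := by
    rw [h1, smul_add, smul_smul, mul_div_cancel₀ _ hα]
  rw [Finset.mem_image]
  refine ⟨β / α, ?_, ?_⟩
  · rw [Multiset.mem_toFinset, Polynomial.mem_roots hp0, Polynomial.IsRoot.def, hp, eval_lpol]
    rw [h2, map_smul, frm_smul, map_add, map_smul] at hP0
    rcases mul_eq_zero.1 hP0 with h3 | h3
    · exact absurd (eq_zero_of_pow_eq_zero h3) hα
    · exact h3
  · rw [← P.mk_rep]
    rw [Projectivization.mk_eq_mk_iff]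
    refine ⟨(Units.mk0 α hα)⁻¹, ?_⟩
    have h3 : (Units.mk0 α hα)⁻¹ • P.rep = ((Units.mk0 α hα)⁻¹ : Kˣ) •
        ((Units.mk0 α hα) • (y + (β / α) • P₀.rep)) := by
      rw [h2]
      rfl
    rw [h3, inv_smul_smul]

/-- A line on which all colours occur. -/
theorem caseB {s D : ℕ} (hs : 2 ≤ s) (hD : 2 ≤ D)
    [Fintype (Projectivization K (Fin 2 → K))]
    (c₁ : Projectivization K (Fin 2 → K) → Fin s) (j : Fin s) (P₀ : Projectivization K (Fin 2 → K))
    (hP₀ : c₁ P₀ = j)
    (hj : D + (Finset.univ.filter fun P => c₁ P = j).card ≤ Fintype.card K) : Bd c₁ D := by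
  classical
  have : NeZero s := ⟨by omega⟩
  have : Nontrivial (Fin s) := Fin.nontrivial_iff_two_le.2 hs
  obtain ⟨i₁, hi₁⟩ := exists_ne j
  let eq : ZMod s ≃ Fin s := Fintype.equivOfCardEq (by rw [ZMod.card, Fintype.card_fin])
  let Ψ : K × ZMod s → Fin s := fun z =>
    if z.1 = 0 then (if eq z.2 = j then i₁ else eq z.2) else j
  have hΨ : Function.Surjective Ψ := by
    intro i
    by_cases hij : i = j
    · refine ⟨(1, 0), ?_⟩
      simp only [Ψ, if_neg (one_ne_zero (α := K)), hij]
    · refine ⟨(0, eq.symm i), ?_⟩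
      simp only [Ψ, if_true, Equiv.apply_symm_apply, if_neg hij]
  have hΨj : ∀ z, Ψ z = j ↔ z.1 ≠ 0 := by
    intro z
    by_cases hz : z.1 = 0
    · simp only [Ψ, if_pos hz, hz, ne_eq, not_true_eq_false, iff_false]
      split_ifs with h
      · exact hi₁
      · exact h
    · simp only [Ψ, if_neg hz, ne_eq, hz, not_false_eq_true]
  refine core (K := K) (k := 2) (ε := fun _ => 1) (by norm_num) hD (by omega)
    (fun i => one_ne_zero) (fun i x y => by simp) Ψ hΨ (fun τ z r hτ => ?_) c₁
    fun n a φ r hcon => ?_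
  · have h1 : τ ^ (∑ _i : Fin D, 1) * z = 0 ↔ z = 0 := by
      rw [mul_eq_zero]
      exact ⟨fun h => h.resolve_left (pow_ne_zero _ hτ), fun h => Or.inr h⟩
    simp only [Ψ, h1]
  · have h1 : ∀ P, c₁ P = j ↔ frm (fun _ => 1) a (φ P.rep) ≠ 0 := by
      intro P
      rw [hcon P, hΨj]
    have h2 := zeros_le a φ P₀ ((h1 P₀).1 hP₀)
    have h3 : Fintype.card (Projectivization K (Fin 2 → K)) = Fintype.card K + 1 := by
      have := Projectivization.card_of_finrank_two (k := K) (V := Fin 2 → K)
        (by rw [finrank_fin_fun])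
      rwa [Nat.card_eq_fintype_card, Nat.card_eq_fintype_card] at this
    have h4 := Finset.card_filter_add_card_filter_not (s := (Finset.univ : Finset
      (Projectivization K (Fin 2 → K)))) (fun P => c₁ P = j)
    have h5 : (Finset.univ.filter fun P => ¬c₁ P = j) =
        Finset.univ.filter fun P : Projectivization K (Fin 2 → K) =>
          frm (fun _ => 1) a (φ P.rep) = 0 := by
      ext P
      simp only [Finset.mem_filter, Finset.mem_univ, true_and]
      rw [h1 P, not_not]
    rw [h5, Finset.card_univ, h3] at h4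
    omega

/-- Every colouring, restricted to a line. -/
theorem lines {k s D : ℕ} (hk : 2 ≤ k) (hs : 2 ≤ s) (hD : 2 ≤ D)
    (hD1 : D ≤ Fintype.card K - 1) (hD2 : D + (Fintype.card K + 1) / s ≤ Fintype.card K)
    (c₁ : Projectivization K (Fin k → K) → Fin s) : Bd c₁ D := by
  classical
  have : Fintype (Projectivization K (Fin 2 → K)) := Fintype.ofFinite _
  let ι : (Fin 2 → K) →ₗ[K] (Fin k → K) :=
    { toFun := fun x i => if h : (i : ℕ) < 2 then x ⟨i, h⟩ else 0
      map_add' := fun x y => by
        funext i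
        by_cases h : (i : ℕ) < 2
        · simp only [dif_pos h, Pi.add_apply]
        · simp only [dif_neg h, Pi.add_apply, add_zero]
      map_smul' := fun c x => by
        funext i
        by_cases h : (i : ℕ) < 2
        · simp only [dif_pos h, Pi.smul_apply, RingHom.id_apply]
        · simp only [dif_neg h, Pi.smul_apply, smul_zero] }
  have hι : Function.Injective ι := by
    intro x y hxy
    funext i
    have h1 := congrFun hxy (Fin.castLE hk i)
    have h2 : ((Fin.castLE hk i : Fin k) : ℕ) < 2 := i.2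
    have h3 : ∀ z : Fin 2 → K, ι z (Fin.castLE hk i) = z i := by
      intro z
      show (if h : ((Fin.castLE hk i : Fin k) : ℕ) < 2 then z ⟨(Fin.castLE hk i : Fin k), h⟩
        else 0) = z i
      rw [dif_pos h2]
      rfl
    rwa [h3, h3] at h1
  refine Bd.restrict ι hι ?_
  set c₂ := fun x => c₁ (Projectivization.map ι hι x) with hc₂
  have h3 : Fintype.card (Projectivization K (Fin 2 → K)) = Fintype.card K + 1 := by
    have := Projectivization.card_of_finrank_two (k := K) (V := Fin 2 → K)
      (by rw [finrank_fin_fun])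
    rwa [Nat.card_eq_fintype_card, Nat.card_eq_fintype_card] at this
  -- the rarest colour
  obtain ⟨j, hj⟩ : ∃ j : Fin s, (Finset.univ.filter fun P => c₂ P = j).card ≤
      (Fintype.card K + 1) / s := by
    by_contra hcon
    push Not at hcon
    have h4 : ∑ j : Fin s, (Finset.univ.filter fun P => c₂ P = j).card =
        Fintype.card K + 1 := by
      rw [← h3, ← Finset.card_univ]
      exact (Finset.card_eq_sum_card_fiberwise (f := c₂) (t := Finset.univ)
        fun _ _ => Finset.mem_coe.2 (Finset.mem_univ _)).symm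
    have h5 := Finset.card_nsmul_le_sum (Finset.univ : Finset (Fin s))
      (fun j => (Finset.univ.filter fun P => c₂ P = j).card) ((Fintype.card K + 1) / s + 1)
      fun j _ => hcon j
    rw [h4, Finset.card_univ, Fintype.card_fin, smul_eq_mul] at h5
    have h6 := Nat.lt_mul_div_succ (Fintype.card K + 1) (by omega : 0 < s)
    omega
  by_cases hex : ∃ P, c₂ P = j
  · obtain ⟨P₀, hP₀⟩ := hex
    exact caseB hs hD c₂ j P₀ hP₀ (by omega)
  · push Not at hex
    have h7 : (2 - 1) * (Fintype.card K - 1) = Fintype.card K - 1 := by simp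
    have h8 := caseA (by omega) c₂ j hex (by omega)
    exact h8.mono hD (by omega)

end Pool.Agent.H55.EB
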