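import Pool.Agent.H55.EB.Prod

/-!
# Upper bounds for the exponent in the multicoloured Erdos-Hajnal property (MP_d770f7_co)
-/

set_option autoImplicit false

open Finset Module

namespace Pool.Agent.H55.EB

variable {K : Type} [Field K] [Fintype K]

/-- A homogeneous subspace of the forbidden colouring. -/
theorem caseU {k s D : ℕ} (hs : 1 ≤ s) (hD : 2 ≤ D)
    (c₁ : Projectivization K (Fin k → K) → Fin s) (U : Submodule K (Fin k → K)) (j : Fin s)
    (hj : ∀ x : Projectivization K (Fin k → K), x.submodule ≤ U → c₁ x ≠ j)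
    (hU : D ≤ (finrank K U - 1) * (Fintype.card K - 1)) : Bd c₁ D := by
  let ι : (Fin (finrank K U) → K) →ₗ[K] (Fin k → K) :=
    U.subtype.comp (finBasis K U).equivFun.symm.toLinearMap
  have hι : Function.Injective ι := by
    intro x y hxy
    exact (finBasis K U).equivFun.symm.injective (U.injective_subtype hxy)
  refine Bd.restrict ι hι ?_
  refine Bd.mono (caseA hs _ j (fun x => ?_) (by omega)) hD hU
  refine hj _ ?_
  induction x using Projectivization.ind with
  | h v hv =>
    rw [Projectivization.map_mk, Projectivization.submodule_mk,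
      Submodule.span_singleton_le_iff_mem]
    exact ((finBasis K U).equivFun.symm v).2

/-- The trace takes at most `p` values. -/
lemma psi_card [DecidableEq K] (p : ℕ) [Fact p.Prime] [Algebra (ZMod p) K] :
    (Finset.univ.image fun z : K => algebraMap (ZMod p) K (Algebra.trace (ZMod p) K z)).card ≤
      p := by
  have h1 : (Finset.univ.image fun z : K => algebraMap (ZMod p) K
      (Algebra.trace (ZMod p) K z)) ⊆ Finset.univ.image (algebraMap (ZMod p) K) := by
    intro y hy
    obtain ⟨z, -, hz⟩ := Finset.mem_image.1 hy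
    exact Finset.mem_image.2 ⟨_, Finset.mem_univ _, hz⟩
  refine (Finset.card_le_card h1).trans (Finset.card_image_le.trans ?_)
  rw [Finset.card_univ, ZMod.card]

/-- At least `p` colours. -/
theorem caseT {p k s : ℕ} [CharP K p] (hs : 2 ≤ s) (hps : p ≤ s)
    (c₁ : Projectivization K (Fin k → K) → Fin s)
    (hD : 2 ≤ (k - 1) * (Fintype.card K - 1)) :
    Bd c₁ ((k - 1) * (Fintype.card K - 1)) := by
  classical
  have hq : 2 ≤ Fintype.card K := Fintype.one_lt_card
  have hk : 1 ≤ k := by
    rcases Nat.eq_zero_or_pos k with rfl | hk0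
    · simp at hD
    · exact hk0
  have hQ : ∀ x y : K, (x + y) ^ Fintype.card K = x ^ Fintype.card K + y ^ Fintype.card K := by
    intro x y
    rw [FiniteField.pow_card, FiniteField.pow_card, FiniteField.pow_card]
  have hsum : (∑ _i : Fin ((k - 1) * (Fintype.card K - 1)), Fintype.card K ^ 0) =
      (k - 1) * (Fintype.card K - 1) := by simp
  have hpw : ∀ t : K, t ≠ 0 → t ^ ((k - 1) * (Fintype.card K - 1)) = 1 := by
    intro t ht
    rw [mul_comm, pow_mul, FiniteField.pow_card_sub_one_eq_one t ht, one_pow]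
  have hp : Fact p.Prime := ⟨CharP.char_is_prime K p⟩
  let _ : Algebra (ZMod p) K := ZMod.algebra K p
  set ψ : K → K := fun z => algebraMap (ZMod p) K (Algebra.trace (ZMod p) K z) with hψ
  refine caseV (ε := fun _ => Fintype.card K ^ 0) hk hD (by omega) (fun i => by simp)
    (fun i x y => by simp) ψ ?_ ?_ ?_ ?_ ?_ ?_ c₁
  · rw [hψ]
    simp
  · obtain ⟨z, hz⟩ := Algebra.trace_surjective (ZMod p) K 1
    exact ⟨z, by rw [hψ]; simp only; rw [hz, map_one]⟩
  · intro t z ht
    rw [hsum, hpw t ht, one_mul]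
  · intro n a φ
    have h1 := Wt_sum (K := K) (Q := Fintype.card K) (t := 1) (k := k) hq le_rfl (pow_one _)
      (W := (k - 1) * (Fintype.card K - 1)) (by
        rw [one_mul]
        exact Nat.mul_lt_mul_of_pos_right (by omega) (by omega))
      (Wt_frm (by omega) hQ (fun _ => 0) a φ)
    rw [hψ]
    simp only
    rw [← map_sum, ← map_sum, h1, map_zero, map_zero]
  · exact (psi_card p).trans hps
  · rcases Nat.lt_or_ge p s with h2 | h2
    · exact Or.inl (lt_of_le_of_lt (psi_card p) h2)
    · right
      right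
      have h3 : s = p := by omega
      rw [h3]
      exact CharP.cast_eq_zero K p

/-- Upper bounds for the exponent. -/
theorem main {p : ℕ} [CharP K p] {k s D : ℕ} (hs : 2 ≤ s) (hD : 2 ≤ D)
    (c₁ : Projectivization K (Fin k → K) → Fin s)
    (hcase : D ≤ (k - 1) / 2 * (Fintype.card K - 1) ∨
      (∃ U : Submodule K (Fin k → K),
        (∃ i : Fin s, ∀ x : Projectivization K (Fin k → K), x.submodule ≤ U → c₁ x ≠ i) ∧
          D ≤ (finrank K U - 1) * (Fintype.card K - 1)) ∨
      (p ≤ s ∧ D ≤ (k - 1) * (Fintype.card K - 1)) ∨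
      (2 ≤ k ∧ D ≤ Fintype.card K - 1 ∧ D + (Fintype.card K + 1) / s ≤ Fintype.card K)) :
    Bd c₁ D := by
  rcases hcase with h1 | ⟨U, ⟨j, hj⟩, hU⟩ | ⟨hps, h1⟩ | ⟨hk, h1, h2⟩
  · have hk : 2 * ((k - 1) / 2) < k := by
      rcases Nat.eq_zero_or_pos k with rfl | hk0
      · simp at h1
        omega
      · omega
    exact (caseP hs c₁ hk (by omega)).mono hD h1
  · exact caseU (by omega) hD c₁ U j hj hU
  · exact (caseT hs hps c₁ (by omega)).mono hD h1
  · exact lines hk hs hD h1 h2 c₁

end Pool.Agent.H55.EB
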