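import Pool.Agent.H55.EB.Lines

/-!
# Two complementary colourings
-/

set_option autoImplicit false

open Finset Module

namespace Pool.Agent.H55.EB

variable {K : Type} [Field K] [Fintype K]

/-- One of two rules (`f = 1` on the first class, `f = 1` on the other classes) works. -/
theorem caseP {k s a : ℕ} (hs : 2 ≤ s) (c₁ : Projectivization K (Fin k → K) → Fin s)
    (ha : 2 * a < k) (hD : 2 ≤ a * (Fintype.card K - 1)) :
    Bd c₁ (a * (Fintype.card K - 1)) := by
  classical
  have : NeZero s := ⟨by omega⟩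
  have : Fintype (Projectivization K (Fin k → K)) := Fintype.ofFinite _
  have hq : 2 ≤ Fintype.card K := Fintype.one_lt_card
  have hε : ∀ i : Fin (a * (Fintype.card K - 1)),
      (fun _ => Fintype.card K ^ 0 : Fin (a * (Fintype.card K - 1)) → ℕ) i ≠ 0 := by
    intro i
    simp
  have hQ : ∀ x y : K, (x + y) ^ Fintype.card K = x ^ Fintype.card K + y ^ Fintype.card K := by
    intro x y
    rw [FiniteField.pow_card, FiniteField.pow_card, FiniteField.pow_card]
  have hsum : (∑ _i : Fin (a * (Fintype.card K - 1)), Fintype.card K ^ 0) =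
      a * (Fintype.card K - 1) := by simp
  have hpw : ∀ t : K, t ≠ 0 → t ^ (a * (Fintype.card K - 1)) = 1 := by
    intro t ht
    rw [mul_comm, pow_mul, FiniteField.pow_card_sub_one_eq_one t ht, one_pow]
  let eq : ZMod s ≃ Fin s := Fintype.equivOfCardEq (by rw [ZMod.card, Fintype.card_fin])
  let j : Fin s := ⟨0, by omega⟩
  let i₁ : Fin s := ⟨1, by omega⟩
  have hi₁ : i₁ ≠ j := by
    intro h
    have := congrArg Fin.val h
    simp [i₁, j] at this
  let R : ZMod s → Fin s := fun r => if eq r = j then i₁ else eq r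
  have hR : ∀ r, R r ≠ j := by
    intro r
    simp only [R]
    split_ifs with h
    · exact hi₁
    · exact h
  have hRs : ∀ i, i ≠ j → R (eq.symm i) = i := by
    intro i hi
    simp only [R, Equiv.apply_symm_apply, if_neg hi]
  let Ψ₁ : K × ZMod s → Fin s := fun z => if z.1 = 1 then j else R z.2
  let Ψ₂ : K × ZMod s → Fin s := fun z => if z.1 = 1 then R z.2 else j
  have hΨ₁ : Function.Surjective Ψ₁ := by
    intro i
    by_cases hij : i = j
    · refine ⟨(1, 0), ?_⟩
      simp only [Ψ₁, if_true, hij]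
    · refine ⟨(0, eq.symm i), ?_⟩
      simp only [Ψ₁, if_neg (zero_ne_one (α := K)), hRs i hij]
  have hΨ₂ : Function.Surjective Ψ₂ := by
    intro i
    by_cases hij : i = j
    · refine ⟨(0, 0), ?_⟩
      simp only [Ψ₂, if_neg (zero_ne_one (α := K)), hij]
    · refine ⟨(1, eq.symm i), ?_⟩
      simp only [Ψ₂, if_true, hRs i hij]
  have h₁ : ∀ z, Ψ₁ z = j ↔ z.1 = 1 := by
    intro z
    by_cases hz : z.1 = 1
    · simp only [Ψ₁, if_pos hz, hz]
    · simp only [Ψ₁, if_neg hz, hz, iff_false]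
      exact hR _
  have h₂ : ∀ z, Ψ₂ z ≠ j ↔ z.1 = 1 := by
    intro z
    by_cases hz : z.1 = 1
    · simp only [Ψ₂, if_pos hz, hz, iff_true]
      exact hR _
    · simp only [Ψ₂, if_neg hz, hz, ne_eq, not_true_eq_false]
  by_contra hcon
  obtain ⟨n, b, φ, r, h3⟩ : ∃ (n : ℕ) (b : (Fin (a * (Fintype.card K - 1)) → Fin n) → K)
      (φ : (Fin k → K) →ₗ[K] (Fin n → K)) (r : Projectivization K (Fin k → K) → ZMod s),
      ∀ x, c₁ x = Ψ₁ (frm (fun _ => Fintype.card K ^ 0) b (φ x.rep), r x) := by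
    by_contra hno
    push Not at hno
    refine hcon (core (ε := fun _ => Fintype.card K ^ 0) (by omega) hD (by omega) hε
      (fun i x y => by simp) Ψ₁ hΨ₁ (fun τ z r hτ => ?_) c₁ fun n b φ r h => ?_)
    · rw [hsum, hpw τ hτ, one_mul]
    · obtain ⟨x, hx⟩ := hno n b φ r
      exact hx (h x)
  obtain ⟨n', b', φ', r', h4⟩ : ∃ (n : ℕ) (b : (Fin (a * (Fintype.card K - 1)) → Fin n) → K)
      (φ : (Fin k → K) →ₗ[K] (Fin n → K)) (r : Projectivization K (Fin k → K) → ZMod s),
      ∀ x, c₁ x = Ψ₂ (frm (fun _ => Fintype.card K ^ 0) b (φ x.rep), r x) := by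
    by_contra hno
    push Not at hno
    refine hcon (core (ε := fun _ => Fintype.card K ^ 0) (by omega) hD (by omega) hε
      (fun i x y => by simp) Ψ₂ hΨ₂ (fun τ z r hτ => ?_) c₁ fun n b φ r h => ?_)
    · rw [hsum, hpw τ hτ, one_mul]
    · obtain ⟨x, hx⟩ := hno n b φ r
      exact hx (h x)
  set f : (Fin k → K) → K := fun x => frm (fun _ => Fintype.card K ^ 0) b (φ x) with hf
  set f' : (Fin k → K) → K := fun x => frm (fun _ => Fintype.card K ^ 0) b' (φ' x) with hf'
  have hfW : f ∈ Wt K (Fintype.card K) k (a * (Fintype.card K - 1)) :=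
    Wt_frm (by omega) hQ (fun _ => 0) b φ
  have hfW' : f' ∈ Wt K (Fintype.card K) k (a * (Fintype.card K - 1)) :=
    Wt_frm (by omega) hQ (fun _ => 0) b' φ'
  have hone : (1 : (Fin k → K) → K) ∈ Wt K (Fintype.card K) k (a * (Fintype.card K - 1)) :=
    Wt_mono (Nat.zero_le _) Wt_one
  have hprod := Wt_mul (Submodule.sub_mem _ hone hfW) (Submodule.sub_mem _ hone hfW')
  have h5 := Wt_sum (K := K) (Q := Fintype.card K) (t := 1) (k := k) hq le_rfl (pow_one _)
    (by
      rw [one_mul, ← two_mul, ← mul_assoc]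
      exact Nat.mul_lt_mul_of_pos_right ha (by omega)) hprod
  have hinv : ∀ (n : ℕ) (b : (Fin (a * (Fintype.card K - 1)) → Fin n) → K)
      (φ : (Fin k → K) →ₗ[K] (Fin n → K)) (t : K) (x : Fin k → K), t ≠ 0 →
      frm (fun _ => Fintype.card K ^ 0) b (φ (t • x)) =
        frm (fun _ => Fintype.card K ^ 0) b (φ x) := by
    intro n b φ t x ht
    rw [map_smul, frm_smul, hsum, hpw t ht, one_mul]
  have h6 := sum_points (K := K) (fun x => ((1 - f) * (1 - f')) x) (fun t x ht => by
    show (1 - f (t • x)) * (1 - f' (t • x)) = (1 - f x) * (1 - f' x)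
    rw [hf, hf']
    simp only
    rw [hinv n b φ t x ht, hinv n' b' φ' t x ht])
  have h7 : ∑ P : Projectivization K (Fin k → K), ((1 - f) * (1 - f')) P.rep = 0 := by
    refine Finset.sum_eq_zero fun P _ => ?_
    show (1 - f P.rep) * (1 - f' P.rep) = 0
    by_cases hP : c₁ P = j
    · have h8 : f P.rep = 1 := (h₁ _).1 ((h3 P).symm.trans hP)
      rw [h8, sub_self, zero_mul]
    · have h8 : f' P.rep = 1 := (h₂ _).1 (by rw [← h4 P]; exact hP)
      rw [h8, sub_self, mul_zero]
  have h9 : ((1 - f) * (1 - f')) (0 : Fin k → K) = 1 := by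
    show (1 - f 0) * (1 - f' 0) = 1
    have e1 : f 0 = 0 := by
      rw [hf]
      simp only
      rw [map_zero]
      exact frm_zero (by omega) hε b
    have e2 : f' 0 = 0 := by
      rw [hf']
      simp only
      rw [map_zero]
      exact frm_zero (by omega) hε b'
    rw [e1, e2, sub_zero, one_mul]
  rw [h5, h7, h9, sub_zero] at h6
  exact zero_ne_one h6

end Pool.Agent.H55.EB
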