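import Pool.Agent.H55.EB.Form

/-!
# Sums over the points of a projective space; choice of the values of the colours
-/

set_option autoImplicit false

open Finset Module

namespace Pool.Agent.H55.EB

variable {K : Type} [Field K] [Fintype K]

lemma cast_card_sub : ((Fintype.card K - 1 : ℕ) : K) = -1 := by
  have h1 : 1 ≤ Fintype.card K := Fintype.card_pos
  rw [Nat.cast_sub h1, FiniteField.cast_card_eq_zero]
  simp

/-- The sum over the vectors of a function that is constant on lines. -/
lemma sum_points {k : ℕ} [Fintype (Projectivization K (Fin k → K))] (g : (Fin k → K) → K)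
    (hg : ∀ (t : K) (x : Fin k → K), t ≠ 0 → g (t • x) = g x) :
    ∑ x, g x = g 0 - ∑ P : Projectivization K (Fin k → K), g P.rep := by
  classical
  let e : Kˣ × Projectivization K (Fin k → K) → {x : Fin k → K // x ≠ 0} :=
    fun z => ⟨(z.1 : K) • z.2.rep, smul_ne_zero z.1.ne_zero z.2.rep_nonzero⟩
  have hmk : ∀ z, Projectivization.mk K (e z).1 (e z).2 = z.2 := by
    rintro ⟨u, P⟩
    have h1 : Projectivization.mk K ((u : K) • P.rep)
        (smul_ne_zero u.ne_zero P.rep_nonzero) = Projectivization.mk K P.rep P.rep_nonzero := by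
      rw [Projectivization.mk_eq_mk_iff]
      exact ⟨u, rfl⟩
    exact h1.trans P.mk_rep
  have hbij : Function.Bijective e := by
    constructor
    · rintro ⟨u, P⟩ ⟨w, Q⟩ h
      have h1 : P = Q := by
        have h2 : Projectivization.mk K (e (u, P)).1 (e (u, P)).2 = P := hmk (u, P)
        have h3 : Projectivization.mk K (e (w, Q)).1 (e (w, Q)).2 = Q := hmk (w, Q)
        rw [← h2, ← h3]
        congr 1
        exact congrArg Subtype.val h
      subst h1
      have h4 : (u : K) • P.rep = (w : K) • P.rep := congrArg Subtype.val h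
      have h5 : (u : K) = w := by
        have h6 : ((u : K) - w) • P.rep = 0 := by rw [sub_smul, h4, sub_self]
        rcases smul_eq_zero.1 h6 with h7 | h7
        · exact sub_eq_zero.1 h7
        · exact absurd h7 P.rep_nonzero
      rw [Units.ext h5]
    · rintro ⟨x, hx⟩
      obtain ⟨u, hu⟩ := Projectivization.exists_smul_eq_mk_rep K x hx
      refine ⟨(u⁻¹, Projectivization.mk K x hx), Subtype.ext ?_⟩
      show ((u⁻¹ : Kˣ) : K) • (Projectivization.mk K x hx).rep = x
      rw [← hu]
      show (u⁻¹ : Kˣ) • u • x = x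
      rw [inv_smul_smul]
  have h1 : ∑ x : {x : Fin k → K // x ≠ 0}, g x.1 =
      ∑ z : Kˣ × Projectivization K (Fin k → K), g (e z).1 :=
    (hbij.sum_comp (fun x : {x : Fin k → K // x ≠ 0} => g x.1)).symm
  have h2 : ∑ z : Kˣ × Projectivization K (Fin k → K), g (e z).1 =
      -∑ P : Projectivization K (Fin k → K), g P.rep := by
    rw [Fintype.sum_prod_type]
    have h3 : ∀ u : Kˣ, ∑ P : Projectivization K (Fin k → K), g (e (u, P)).1 =
        ∑ P : Projectivization K (Fin k → K), g P.rep := fun u =>
      Finset.sum_congr rfl fun P _ => hg _ _ u.ne_zero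
    rw [Finset.sum_congr rfl fun u _ => h3 u, Finset.sum_const, Finset.card_univ,
      Fintype.card_units, nsmul_eq_mul, cast_card_sub]
    ring
  have h4 : ∑ x, g x = g 0 + ∑ x : {x : Fin k → K // x ≠ 0}, g x.1 := by
    rw [← Finset.add_sum_erase Finset.univ g (Finset.mem_univ 0)]
    congr 1
    refine (Finset.sum_subtype _ (fun x => ?_) g)
    simp
  rw [h4, h1, h2]
  ring

/-- The number of points is one modulo the characteristic. -/
lemma card_points {k : ℕ} (hk : 1 ≤ k) [Fintype (Projectivization K (Fin k → K))] :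
    ∑ _P : Projectivization K (Fin k → K), (1 : K) = 1 := by
  have h := sum_points (K := K) (k := k) (fun _ => 1) fun _ _ _ => rfl
  have h1 : ∑ _x : Fin k → K, (1 : K) = 0 := by
    rw [Finset.sum_const, Finset.card_univ, Fintype.card_fun, Fintype.card_fin, nsmul_eq_mul,
      mul_one, Nat.cast_pow, FiniteField.cast_card_eq_zero]
    exact zero_pow (by omega)
  rw [h1] at h
  linear_combination h

/-- A permutation with two prescribed values. -/
lemma exists_perm {ι : Type} [DecidableEq ι] {i j a b : ι} (hij : i ≠ j) (hab : a ≠ b) :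
    ∃ π : Equiv.Perm ι, π i = a ∧ π j = b := by
  set j' := Equiv.swap i a j with hj'
  have h1 : Equiv.swap i a i = a := Equiv.swap_apply_left i a
  have h2 : a ≠ j' := by
    intro h
    rw [← h1, hj'] at h
    exact hij ((Equiv.swap i a).injective h)
  refine ⟨(Equiv.swap i a).trans (Equiv.swap j' b), ?_, ?_⟩
  · rw [Equiv.trans_apply, h1]
    exact Equiv.swap_apply_of_ne_of_ne h2 hab
  · rw [Equiv.trans_apply, ← hj']
    exact Equiv.swap_apply_left j' b

/-- The choice of the values of the colours. -/
lemma exists_val {s : ℕ} (M : Finset K) (h0 : (0 : K) ∈ M) (h1 : (1 : K) ∈ M)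
    (hM : M.card ≤ s) (hM' : M.card < s ∨ M.card = 2 ∨ (s : K) = 0) (N : Fin s → K)
    (hN : ∑ i, N i = 1) :
    ∃ v : Fin s → K, (∀ i, v i ∈ M) ∧ (∀ z ∈ M, ∃ i, v i = z) ∧ ∑ i, v i * N i ≠ 0 := by
  classical
  -- a surjection onto `M`
  obtain ⟨v, hvM, hvs⟩ : ∃ v : Fin s → K, (∀ i, v i ∈ M) ∧ ∀ z ∈ M, ∃ i, v i = z := by
    have hc : Fintype.card M ≤ Fintype.card (Fin s) := by
      rw [Fintype.card_coe, Fintype.card_fin]
      exact hM
    obtain ⟨φ⟩ := Function.Embedding.nonempty_of_card_le hc
    refine ⟨fun i => if h : ∃ z, φ z = i then (h.choose : K) else 0, fun i => ?_, fun z hz => ?_⟩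
    · by_cases h : ∃ z, φ z = i
      · simp only [dif_pos h]
        exact h.choose.2
      · simp only [dif_neg h]
        exact h0
    · refine ⟨φ ⟨z, hz⟩, ?_⟩
      have h : ∃ z', φ z' = φ ⟨z, hz⟩ := ⟨_, rfl⟩
      simp only [dif_pos h]
      have h2 := φ.injective h.choose_spec
      rw [h2]
  by_contra hcon
  push Not at hcon
  -- all permutations give the sum zero
  have hperm : ∀ π : Equiv.Perm (Fin s), ∑ i, v (π i) * N i = 0 := fun π =>
    hcon (fun i => v (π i)) (fun i => hvM _) fun z hz => by
      obtain ⟨i, hi⟩ := hvs z hz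
      exact ⟨π.symm i, by rw [Equiv.apply_symm_apply]; exact hi⟩
  obtain ⟨a, ha⟩ := hvs 1 h1
  obtain ⟨b, hb⟩ := hvs 0 h0
  have hab : a ≠ b := by
    intro h
    rw [h, hb] at ha
    exact zero_ne_one ha
  have heq : ∀ i j, N i = N j := by
    intro i j
    by_cases hij : i = j
    · rw [hij]
    obtain ⟨π, hi, hj⟩ := exists_perm hij hab
    have e1 := hperm π
    have e2 := hperm ((Equiv.swap i j).trans π)
    have e3 : ∑ l, v (((Equiv.swap i j).trans π) l) * N l =
        ∑ l, v (π l) * N (Equiv.swap i j l) := by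
      rw [← Equiv.sum_comp (Equiv.swap i j)]
      refine Finset.sum_congr rfl fun l _ => ?_
      rw [Equiv.trans_apply, Equiv.swap_apply_self]
    rw [e3] at e2
    have e4 : ∑ l, v (π l) * (N l - N (Equiv.swap i j l)) = 0 := by
      simp_rw [mul_sub]
      rw [Finset.sum_sub_distrib, e1, e2, sub_zero]
    have e5 : ∑ l, v (π l) * (N l - N (Equiv.swap i j l)) =
        v (π i) * (N i - N j) + v (π j) * (N j - N i) := by
      rw [← Finset.sum_subset (Finset.subset_univ ({i, j} : Finset (Fin s))),
        Finset.sum_pair hij, Equiv.swap_apply_left, Equiv.swap_apply_right]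
      intro l _ hl
      rw [Finset.mem_insert, Finset.mem_singleton, not_or] at hl
      rw [Equiv.swap_apply_of_ne_of_ne hl.1 hl.2, sub_self, mul_zero]
    rw [e5, hi, hj, ha, hb] at e4
    linear_combination e4
  -- all `N i` are equal to `A`, `s A = 1`
  have hA : ∀ i, N i = N a := fun i => heq i a
  have hsA : (s : K) * N a = 1 := by
    rw [← hN, Finset.sum_congr rfl fun i _ => hA i, Finset.sum_const, Finset.card_univ,
      Fintype.card_fin, nsmul_eq_mul]
  have hA0 : N a ≠ 0 := by
    intro h
    rw [h, mul_zero] at hsA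
    exact zero_ne_one hsA
  have hs0 : (s : K) ≠ 0 := by
    intro h
    rw [h, zero_mul] at hsA
    exact zero_ne_one hsA
  have hsum : ∀ w : Fin s → K, ∑ i, w i * N i = (∑ i, w i) * N a := fun w => by
    rw [Finset.sum_mul]
    exact Finset.sum_congr rfl fun i _ => by rw [hA i]
  have hzero : ∀ w : Fin s → K, (∀ i, w i ∈ M) → (∀ z ∈ M, ∃ i, w i = z) → ∑ i, w i = 0 := by
    intro w hw1 hw2
    have h := hcon w hw1 hw2
    rw [hsum] at h
    exact (mul_eq_zero.1 h).resolve_right hA0
  rcases Nat.lt_or_ge M.card s with hlt | hge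
  · -- change one value
    have hni : ¬Function.Injective v := by
      intro hinj
      have h2 : Fintype.card (Fin s) ≤ Fintype.card M :=
        Fintype.card_le_of_injective (fun i => (⟨v i, hvM i⟩ : M)) fun i j h =>
          hinj (congrArg Subtype.val h)
      rw [Fintype.card_fin, Fintype.card_coe] at h2
      omega
    rw [Function.Injective] at hni
    push Not at hni
    obtain ⟨i, j, hvij, hij⟩ := hni
    have hz : ∃ z ∈ M, z ≠ v i := by
      by_cases h2 : v i = 0
      · exact ⟨1, h1, by rw [h2]; exact one_ne_zero⟩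
      · exact ⟨0, h0, fun h => h2 h.symm⟩
    obtain ⟨z, hzM, hzi⟩ := hz
    have h3 := hzero v hvM hvs
    have h4 := hzero (Function.update v i z) (fun l => by
      by_cases hl : l = i
      · rw [hl, Function.update_self]
        exact hzM
      · rw [Function.update_of_ne hl]
        exact hvM l) fun y hy => by
        obtain ⟨l, hl⟩ := hvs y hy
        by_cases hli : l = i
        · refine ⟨j, ?_⟩
          rw [Function.update_of_ne (fun h => hij h.symm), ← hvij, ← hli]
          exact hl
        · exact ⟨l, by rw [Function.update_of_ne hli]; exact hl⟩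
    rw [Finset.sum_update_of_mem (Finset.mem_univ i)] at h4
    have h5 : ∑ l, v l = v i + ∑ l ∈ Finset.univ \ {i}, v l := by
      rw [← Finset.sum_sdiff (Finset.subset_univ {i}), Finset.sum_singleton, add_comm]
    rw [h5] at h3
    apply hzi
    linear_combination h4 - h3
  · rcases hM' with h | h | h
    · omega
    · -- two values, two colours
      have hs2 : s = 2 := by omega
      subst hs2
      have h3 := hzero v hvM hvs
      rw [Fin.sum_univ_two] at h3
      have hab2 : (a = 0 ∧ b = 1) ∨ (a = 1 ∧ b = 0) := by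
        fin_cases a <;> fin_cases b
        · exact absurd rfl hab
        · exact Or.inl ⟨rfl, rfl⟩
        · exact Or.inr ⟨rfl, rfl⟩
        · exact absurd rfl hab
      rcases hab2 with ⟨ha2, hb2⟩ | ⟨ha2, hb2⟩
      · rw [ha2] at ha
        rw [hb2] at hb
        rw [ha, hb, add_zero] at h3
        exact one_ne_zero h3
      · rw [ha2] at ha
        rw [hb2] at hb
        rw [ha, hb, zero_add] at h3
        exact one_ne_zero h3
    · exact hs0 h

end Pool.Agent.H55.EB
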